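import Mathlib

/-!
Norms of Taylor coefficients at roots of unity: forced cyclotomic factors.
-/

set_option autoImplicit false

noncomputable section

namespace Pool.Agent.Lib.MP_4f0d88_nt.DG

open Polynomial Finset

/-- absolute norm of the value at a primitive `d`-th root of unity -/
def Nm (d : ℕ) (f : ℤ[X]) : ℝ := ∏ ζ ∈ primitiveRoots d ℂ, ‖aeval ζ f‖

theorem Nm_nonneg (d : ℕ) (f : ℤ[X]) : 0 ≤ Nm d f := prod_nonneg fun _ _ => norm_nonneg _

theorem Nm_mul (d : ℕ) (f g : ℤ[X]) : Nm d (f * g) = Nm d f * Nm d g := by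
  simp only [Nm, map_mul, norm_mul, prod_mul_distrib]

theorem Nm_pow (d : ℕ) (f : ℤ[X]) (k : ℕ) : Nm d (f ^ k) = Nm d f ^ k := by
  simp only [Nm, map_pow, norm_pow, prod_pow]

theorem Nm_prod {ι : Type*} (d : ℕ) (s : Finset ι) (f : ι → ℤ[X]) :
    Nm d (∏ i ∈ s, f i) = ∏ i ∈ s, Nm d (f i) := by
  simp only [Nm, map_prod, norm_prod]
  exact prod_comm

theorem aeval_cyc (e : ℕ) (ζ : ℂ) : aeval ζ (cyclotomic e ℤ) = eval ζ (cyclotomic e ℂ) := by
  rw [aeval_def, eval₂_eq_eval_map, map_cyclotomic]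

theorem aeval_cyc_eq_zero {e : ℕ} (he : 0 < e) {ζ : ℂ} :
    aeval ζ (cyclotomic e ℤ) = 0 ↔ IsPrimitiveRoot ζ e := by
  rw [aeval_cyc]
  exact isRoot_cyclotomic_iff_charZero he

theorem dvd_of_aeval {d : ℕ} (hd : 0 < d) {ζ : ℂ} (h : IsPrimitiveRoot ζ d) {R : ℤ[X]}
    (h0 : aeval ζ R = 0) : cyclotomic d ℤ ∣ R := by
  rw [cyclotomic_eq_minpoly h hd]
  exact minpoly.isIntegrallyClosed_dvd (h.isIntegral hd) h0

theorem one_le_Nm {d : ℕ} (hd : 0 < d) {R : ℤ[X]} (hR : ¬ cyclotomic d ℤ ∣ R) : 1 ≤ Nm d R := by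
  have : NeZero (d : ℂ) := ⟨by exact_mod_cast hd.ne'⟩
  have h1 := resultant_eq_prod_eval (cyclotomic d ℂ) (R.map (Int.castRingHom ℂ)) R.natDegree
    natDegree_map_le (IsAlgClosed.splits _)
  rw [(cyclotomic.monic d ℂ).leadingCoeff, one_pow, one_mul,
    cyclotomic.roots_eq_primitiveRoots_val, natDegree_cyclotomic,
    ← map_cyclotomic d (Int.castRingHom ℂ), resultant_map_map] at h1
  have h2 : ((resultant (cyclotomic d ℤ) R (Nat.totient d) R.natDegree : ℤ) : ℂ) =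
      ∏ ζ ∈ primitiveRoots d ℂ, aeval ζ R := by
    rw [← eq_intCast (Int.castRingHom ℂ), h1]
    refine prod_congr rfl fun ζ _ => ?_
    rw [aeval_def, eval₂_eq_eval_map]
    rfl
  have h3 : (∏ ζ ∈ primitiveRoots d ℂ, aeval ζ R) ≠ 0 := prod_ne_zero_iff.2 fun ζ hζ h0 =>
    hR (dvd_of_aeval hd ((mem_primitiveRoots hd).1 hζ) h0)
  rw [Nm, ← norm_prod, ← h2, Complex.norm_intCast]
  rw [← h2, Int.cast_ne_zero] at h3
  exact_mod_cast Int.one_le_abs h3

theorem cyc_not_dvd {a b : ℕ} (ha : 0 < a) (hb : 0 < b) (h : a ≠ b) :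
    ¬ cyclotomic a ℤ ∣ cyclotomic b ℤ := by
  rintro ⟨g, hg⟩
  have hζ := Complex.isPrimitiveRoot_exp a ha.ne'
  refine h (hζ.unique ((aeval_cyc_eq_zero hb).1 ?_))
  rw [hg, map_mul, (aeval_cyc_eq_zero ha).2 hζ, zero_mul]

theorem cyc_relPrime {a b : ℕ} (ha : 0 < a) (hb : 0 < b) (h : a ≠ b) (m n : ℕ) :
    IsRelPrime (cyclotomic a ℤ ^ m) (cyclotomic b ℤ ^ n) :=
  ((cyclotomic.irreducible ha).isRelPrime_iff_not_dvd.2 (cyc_not_dvd ha hb h)).pow

theorem Nm_C (d : ℕ) (q : ℕ) : Nm d (C (q : ℤ)) = (q : ℝ) ^ Nat.totient d := by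
  simp [Nm, Complex.card_primitiveRoots]

theorem Nm_up {d q : ℕ} (hd : 0 < d) (hq : q.Prime) (h : ¬ q ∣ d) :
    (q : ℝ) ^ Nat.totient d ≤ Nm d (cyclotomic (d * q) ℤ) := by
  have := Fact.mk hq
  have h1 : C (q : ℤ) ∣ cyclotomic (d * q) ℤ - cyclotomic d ℤ ^ (q - 1) := by
    rw [C_dvd_iff_dvd_coeff]
    intro i
    rw [← ZMod.intCast_zmod_eq_zero_iff_dvd, ← eq_intCast (Int.castRingHom (ZMod q)), ← coeff_map,
      Polynomial.map_sub, Polynomial.map_pow, map_cyclotomic, map_cyclotomic,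
      cyclotomic_mul_prime_eq_pow_of_not_dvd (ZMod q) h, sub_self, coeff_zero]
  obtain ⟨H, hH⟩ := h1
  have hq1 : q - 1 ≠ 0 := by have := hq.two_le; omega
  have hne : d ≠ d * q := fun e => hq.one_lt.ne' (Nat.eq_of_mul_eq_mul_left hd (by omega))
  have h2 : ¬ cyclotomic d ℤ ∣ H := fun k => cyc_not_dvd hd (Nat.mul_pos hd hq.pos) hne (by
    rw [sub_eq_iff_eq_add.1 hH]
    exact (k.mul_left _).add (dvd_pow_self _ hq1))
  have h3 : Nm d (cyclotomic (d * q) ℤ) = Nm d (C (q : ℤ) * H) := by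
    refine prod_congr rfl fun ζ hζ => ?_
    rw [← hH, map_sub, map_pow, (aeval_cyc_eq_zero hd).2 ((mem_primitiveRoots hd).1 hζ),
      zero_pow hq1, sub_zero]
  rw [h3, Nm_mul, Nm_C]
  exact le_mul_of_one_le_right (by positivity) (one_le_Nm hd h2)

theorem Nm_symm {d e : ℕ} (hd : 0 < d) (he : 0 < e) :
    Nm d (cyclotomic e ℤ) = Nm e (cyclotomic d ℤ) := by
  have key : ∀ {a b : ℕ}, 0 < b → Nm a (cyclotomic b ℤ) =
      ∏ ζ ∈ primitiveRoots a ℂ, ∏ ξ ∈ primitiveRoots b ℂ, ‖ζ - ξ‖ := fun {a b} hb => by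
    refine prod_congr rfl fun ζ _ => ?_
    rw [aeval_cyc, cyclotomic_eq_prod_X_sub_primitiveRoots (Complex.isPrimitiveRoot_exp b hb.ne'),
      eval_prod, norm_prod]
    simp only [eval_sub, eval_X, eval_C]
  rw [key hd, key he, prod_comm]
  exact prod_congr rfl fun _ _ => prod_congr rfl fun _ _ => norm_sub_rev _ _

theorem Nm_down {d q : ℕ} (hd : Squarefree d) (hq : q ∈ d.primeFactors) :
    (q : ℝ) ^ Nat.totient (d / q) ≤ Nm d (cyclotomic (d / q) ℤ) := by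
  have hp := Nat.prime_of_mem_primeFactors hq
  have hdv := Nat.dvd_of_mem_primeFactors hq
  have hd0 : 0 < d := Nat.pos_of_ne_zero hd.ne_zero
  have h1 : 0 < d / q := Nat.div_pos (Nat.le_of_dvd hd0 hdv) hp.pos
  have h2 : d / q * q = d := Nat.div_mul_cancel hdv
  have h3 : ¬ q ∣ d / q := fun k => hp.not_isUnit (hd q (by
    rw [← h2]
    exact Nat.mul_dvd_mul_right k q))
  have h4 := Nm_up h1 hp h3
  rwa [h2, Nm_symm h1 hd0] at h4

theorem Nm_disc {d : ℕ} (hd : 0 < d) : (d : ℝ) ^ Nat.totient d ≤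
    Nm d (derivative (cyclotomic d ℤ)) * (2 ^ d.primeFactors.card) ^ Nat.totient d := by
  have hH : cyclotomic d ℤ * ∏ e ∈ d.properDivisors, cyclotomic e ℤ ^ 1 = X ^ d - 1 := by
    rw [← prod_cyclotomic_eq_X_pow_sub_one hd ℤ, ← Nat.insert_self_properDivisors hd.ne',
      prod_insert Nat.self_notMem_properDivisors]
    simp only [pow_one]
  set H := ∏ e ∈ d.properDivisors, cyclotomic e ℤ ^ 1 with hHd
  have h1 : H ∣ ∏ q ∈ d.primeFactors, (X ^ (d / q) - 1 : ℤ[X]) := by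
    refine prod_dvd_of_isRelPrime (fun a ha b hb hab => cyc_relPrime
      (Nat.pos_of_mem_properDivisors ha) (Nat.pos_of_mem_properDivisors hb) hab 1 1)
      fun e he => ?_
    obtain ⟨⟨c, hc⟩, hlt⟩ := Nat.mem_properDivisors.1 he
    have hc1 : c ≠ 1 := fun k => by rw [k, mul_one] at hc; omega
    obtain ⟨q, hq, c', rfl⟩ := Nat.exists_prime_and_dvd hc1
    have hm : q ∈ d.primeFactors := Nat.mem_primeFactors.2 ⟨hq, ⟨e * c', by rw [hc]; ring⟩, hd.ne'⟩
    refine Dvd.dvd.trans ?_ (dvd_prod_of_mem _ hm)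
    rw [pow_one, show d / q = e * c' from Nat.div_eq_of_eq_mul_right hq.pos (by rw [hc]; ring),
      pow_mul]
    refine (cyclotomic.dvd_X_pow_sub_one e ℤ).trans ?_
    simpa using sub_dvd_pow_sub_pow (X ^ e : ℤ[X]) 1 c'
  obtain ⟨M, hM⟩ := h1
  have hM1 : 1 ≤ Nm d M := by
    refine one_le_Nm hd fun k => ?_
    have hζ := Complex.isPrimitiveRoot_exp d hd.ne'
    obtain ⟨g, hg⟩ := k
    have h2 := congrArg (aeval (Complex.exp (2 * Real.pi * Complex.I / d))) hM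
    rw [hg, map_mul, map_mul, (aeval_cyc_eq_zero hd).2 hζ, zero_mul, mul_zero, map_prod,
      prod_eq_zero_iff] at h2
    obtain ⟨q, hq, h3⟩ := h2
    have hp := Nat.prime_of_mem_primeFactors hq
    simp only [map_sub, map_pow, aeval_X, map_one, sub_eq_zero] at h3
    exact hζ.pow_ne_one_of_pos_of_lt
      (Nat.div_pos (Nat.le_of_dvd hd (Nat.dvd_of_mem_primeFactors hq)) hp.pos).ne'
      (Nat.div_lt_self hd hp.one_lt) h3
  have hK : Nm d (H * M) ≤ (2 ^ d.primeFactors.card) ^ Nat.totient d := by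
    rw [← hM, Nm, ← Complex.card_primitiveRoots, ← prod_const]
    refine prod_le_prod (fun _ _ => norm_nonneg _) fun ζ hζ => ?_
    have h4 : ‖ζ‖ = 1 := ((mem_primitiveRoots hd).1 hζ).norm'_eq_one hd.ne'
    rw [map_prod, norm_prod, ← prod_const]
    refine prod_le_prod (fun _ _ => norm_nonneg _) fun q _ => ?_
    simp only [map_sub, map_pow, aeval_X, map_one]
    refine (norm_sub_le _ _).trans ?_
    rw [norm_pow, h4, one_pow, norm_one]
    norm_num
  have hD : Nm d (derivative (cyclotomic d ℤ)) * Nm d H = (d : ℝ) ^ Nat.totient d := by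
    rw [← Nm_mul, Nm, ← Complex.card_primitiveRoots, ← prod_const]
    refine prod_congr rfl fun ζ hζ => ?_
    have h5 := (mem_primitiveRoots hd).1 hζ
    have h4 : ‖ζ‖ = 1 := h5.norm'_eq_one hd.ne'
    have h6 := congrArg (fun f => aeval ζ (derivative f)) hH
    simp only [derivative_mul, map_add, map_mul, (aeval_cyc_eq_zero hd).2 h5, zero_mul, add_zero,
      derivative_sub, derivative_X_pow, derivative_one, sub_zero, map_pow, aeval_X,
      map_natCast] at h6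
    rw [map_mul, h6, norm_mul, norm_pow, h4, one_pow, mul_one, Complex.norm_natCast]
  rw [← hD]
  refine mul_le_mul_of_nonneg_left ?_ (Nm_nonneg _ _)
  rw [Nm_mul] at hK
  exact (le_mul_of_one_le_right (Nm_nonneg _ _) hM1).trans hK

theorem taylor_val {d : ℕ} (hd : 0 < d) {ζ : ℂ} (h : IsPrimitiveRoot ζ d) (k : ℕ) (W : ℤ[X]) :
    (taylor ζ ((cyclotomic d ℤ ^ k * W).map (Int.castRingHom ℂ))).coeff k =
      aeval ζ (derivative (cyclotomic d ℤ) ^ k * W) := by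
  obtain ⟨Ψ, hΨ⟩ := dvd_iff_isRoot.2 ((isRoot_cyclotomic_iff_charZero hd).2 h)
  have h1 : aeval ζ (derivative (cyclotomic d ℤ)) = eval ζ Ψ := by
    rw [aeval_def, eval₂_eq_eval_map, ← derivative_map, map_cyclotomic, hΨ]
    simp
  have h2 : taylor ζ (X - C ζ) = X := by simp
  rw [map_mul (aeval ζ), map_pow (aeval ζ), h1, Polynomial.map_mul, Polynomial.map_pow,
    map_cyclotomic, hΨ, mul_pow, mul_assoc, taylor_mul, taylor_pow, h2]
  have h3 := coeff_X_pow_mul (taylor ζ (Ψ ^ k * W.map (Int.castRingHom ℂ))) k 0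
  rw [zero_add] at h3
  rw [h3, taylor_coeff_zero, eval_mul, eval_pow, aeval_def, eval₂_eq_eval_map]
  rfl

theorem sum_choose (D k : ℕ) : ∑ i ∈ range D, i.choose k = D.choose (k + 1) := by
  induction D with
  | zero => simp
  | succ n ih => rw [sum_range_succ, ih, Nat.choose_succ_succ', add_comm]

theorem taylor_le {P : ℤ[X]} {D : ℕ} (hc : ∀ i, |P.coeff i| ≤ 1) (hD : P.natDegree < D) {ζ : ℂ}
    (h : ‖ζ‖ = 1) (k : ℕ) :
    ‖(taylor ζ (P.map (Int.castRingHom ℂ))).coeff k‖ ≤ D.choose (k + 1) := by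
  rw [taylor_coeff, (P.map (Int.castRingHom ℂ)).as_sum_range' D (natDegree_map_le.trans_lt hD),
    map_sum, eval_finsetSum, ← sum_choose, Nat.cast_sum]
  refine norm_sum_le_of_le _ fun i _ => ?_
  rw [hasseDeriv_monomial, eval_monomial, norm_mul, norm_mul, norm_pow, h, one_pow, mul_one,
    Complex.norm_natCast, coeff_map, eq_intCast, Complex.norm_intCast]
  exact mul_le_of_le_one_right (Nat.cast_nonneg _) (by exact_mod_cast hc i)

theorem core {P : ℤ[X]} {μ : ℕ → ℕ} (hμ : ∀ e, cyclotomic e ℤ ^ μ e ∣ P) {d : ℕ}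
    (hd : Squarefree d) (hx : ¬ cyclotomic d ℤ ^ (μ d + 1) ∣ P) {Q : Finset ℕ}
    (hQ : ∀ q ∈ Q, q.Prime ∧ ¬ q ∣ d) :
    Nm d (derivative (cyclotomic d ℤ)) ^ μ d * (∏ q ∈ Q, ((q : ℝ) ^ Nat.totient d) ^ μ (d * q)) *
        ∏ q ∈ d.primeFactors, ((q : ℝ) ^ Nat.totient (d / q)) ^ μ (d / q) ≤
      ∏ ζ ∈ primitiveRoots d ℂ, ‖(taylor ζ (P.map (Int.castRingHom ℂ))).coeff (μ d)‖ := by
  have hd0 : 0 < d := Nat.pos_of_ne_zero hd.ne_zero
  have hup : ∀ q ∈ Q, d < d * q := fun q hq => lt_mul_of_one_lt_right hd0 (hQ q hq).1.one_lt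
  have hdn : ∀ q ∈ d.primeFactors, 0 < d / q ∧ d / q < d := fun q hq =>
    ⟨Nat.div_pos (Nat.le_of_dvd hd0 (Nat.dvd_of_mem_primeFactors hq))
      (Nat.prime_of_mem_primeFactors hq).pos,
      Nat.div_lt_self hd0 (Nat.prime_of_mem_primeFactors hq).one_lt⟩
  have hA : ∏ q ∈ Q, cyclotomic (d * q) ℤ ^ μ (d * q) ∣ P :=
    prod_dvd_of_isRelPrime (fun a ha b hb hab => cyc_relPrime (hd0.trans (hup a ha))
      (hd0.trans (hup b hb)) (fun e => hab (Nat.eq_of_mul_eq_mul_left hd0 e)) _ _) fun _ _ => hμ _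
  have hB : ∏ q ∈ d.primeFactors, cyclotomic (d / q) ℤ ^ μ (d / q) ∣ P :=
    prod_dvd_of_isRelPrime (fun a ha b hb hab => cyc_relPrime (hdn a ha).1 (hdn b hb).1
      (fun e => hab (by
        rw [← Nat.div_div_self (Nat.dvd_of_mem_primeFactors ha) hd0.ne', e,
          Nat.div_div_self (Nat.dvd_of_mem_primeFactors hb) hd0.ne'])) _ _) fun _ _ => hμ _
  have hAB := IsRelPrime.mul_dvd (IsRelPrime.prod_left fun a ha => IsRelPrime.prod_right
    fun b hb => cyc_relPrime (hd0.trans (hup a ha)) (hdn b hb).1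
      (((hdn b hb).2.trans (hup a ha)).ne') _ _) hA hB
  obtain ⟨R, hR⟩ := IsRelPrime.mul_dvd (IsRelPrime.mul_right
    (IsRelPrime.prod_right fun a ha => cyc_relPrime hd0 (hd0.trans (hup a ha)) (hup a ha).ne _ _)
    (IsRelPrime.prod_right fun b hb => cyc_relPrime hd0 (hdn b hb).1 (hdn b hb).2.ne' _ _))
    (hμ d) hAB
  have hR1 : 1 ≤ Nm d R := one_le_Nm hd0 fun ⟨g, hg⟩ => hx (by
    rw [hR, hg, pow_succ, mul_assoc]
    exact mul_dvd_mul_left _ ((dvd_mul_right _ g).mul_left _))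
  have h1 : ∏ ζ ∈ primitiveRoots d ℂ, ‖(taylor ζ (P.map (Int.castRingHom ℂ))).coeff (μ d)‖ =
      Nm d (derivative (cyclotomic d ℤ) ^ μ d * ((∏ q ∈ Q, cyclotomic (d * q) ℤ ^ μ (d * q)) *
        (∏ q ∈ d.primeFactors, cyclotomic (d / q) ℤ ^ μ (d / q)) * R)) := by
    refine prod_congr rfl fun ζ hζ => ?_
    rw [← taylor_val hd0 ((mem_primitiveRoots hd0).1 hζ), ← mul_assoc, ← hR]
  rw [h1, Nm_mul, Nm_mul, Nm_mul, Nm_pow, Nm_prod, Nm_prod, mul_assoc]
  refine mul_le_mul_of_nonneg_left ?_ (pow_nonneg (Nm_nonneg _ _) _)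
  refine le_trans ?_ (le_mul_of_one_le_right (mul_nonneg (prod_nonneg fun _ _ => Nm_nonneg _ _)
    (prod_nonneg fun _ _ => Nm_nonneg _ _)) hR1)
  refine mul_le_mul (prod_le_prod (fun _ _ => by positivity) fun q hq => ?_)
    (prod_le_prod (fun _ _ => by positivity) fun q hq => ?_)
    (prod_nonneg fun _ _ => by positivity) (prod_nonneg fun _ _ => Nm_nonneg _ _)
  · rw [Nm_pow]
    exact pow_le_pow_left₀ (by positivity) (Nm_up hd0 (hQ q hq).1 (hQ q hq).2) _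
  · rw [Nm_pow]
    exact pow_le_pow_left₀ (by positivity) (Nm_down hd hq) _

theorem one_le_deriv {d : ℕ} (hd : 0 < d) : 1 ≤ Nm d (derivative (cyclotomic d ℤ)) := by
  have h1 : (cyclotomic d ℤ).natDegree ≠ 0 := by
    rw [natDegree_cyclotomic]
    exact (Nat.totient_pos.2 hd).ne'
  refine one_le_Nm hd fun k => ?_
  have h2 : derivative (cyclotomic d ℤ) ≠ 0 := fun e => h1 (derivative_eq_zero.1 e)
  exact (natDegree_le_of_dvd k h2).not_gt (natDegree_derivative_lt h1)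

theorem log_prod_pow (Q : Finset ℕ) (hQ : ∀ q ∈ Q, 0 < q) (a b : ℕ → ℕ) :
    Real.log (∏ q ∈ Q, ((q : ℝ) ^ a q) ^ b q) = ∑ q ∈ Q, (b q : ℝ) * a q * Real.log q := by
  rw [Real.log_prod fun q hq => by have := hQ q hq; positivity]
  exact sum_congr rfl fun q _ => by rw [Real.log_pow, Real.log_pow, mul_assoc]

/-- The inequality at the primitive `d`-th roots of unity. -/
theorem cyc_ineq {P : ℤ[X]} {D : ℕ} (hc : ∀ i, |P.coeff i| ≤ 1) (hD : P.natDegree < D)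
    {μ : ℕ → ℕ} (hμ : ∀ e, cyclotomic e ℤ ^ μ e ∣ P) {d : ℕ} (hd : Squarefree d)
    (hx : ¬ cyclotomic d ℤ ^ (μ d + 1) ∣ P) {Q : Finset ℕ} (hQ : ∀ q ∈ Q, q.Prime ∧ ¬ q ∣ d) :
    (μ d : ℝ) * Nat.totient d * (Real.log d - d.primeFactors.card * Real.log 2) +
        ∑ q ∈ Q, (μ (d * q) : ℝ) * Nat.totient d * Real.log q +
        ∑ q ∈ d.primeFactors, (μ (d / q) : ℝ) * Nat.totient (d / q) * Real.log q ≤
      Nat.totient d * Real.log (D.choose (μ d + 1)) := by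
  have hd0 : 0 < d := Nat.pos_of_ne_zero hd.ne_zero
  have h1 := core hμ hd hx hQ
  have h2 : ∏ ζ ∈ primitiveRoots d ℂ, ‖(taylor ζ (P.map (Int.castRingHom ℂ))).coeff (μ d)‖ ≤
      (D.choose (μ d + 1) : ℝ) ^ Nat.totient d := by
    rw [← Complex.card_primitiveRoots, ← prod_const]
    exact prod_le_prod (fun _ _ => norm_nonneg _) fun ζ hζ =>
      taylor_le hc hD (((mem_primitiveRoots hd0).1 hζ).norm'_eq_one hd0.ne') _
  have hN : 0 < Nm d (derivative (cyclotomic d ℤ)) := one_pos.trans_le (one_le_deriv hd0)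
  have hA : 0 < ∏ q ∈ Q, ((q : ℝ) ^ Nat.totient d) ^ μ (d * q) :=
    prod_pos fun q hq => by have := (hQ q hq).1.pos; positivity
  have hB : 0 < ∏ q ∈ d.primeFactors, ((q : ℝ) ^ Nat.totient (d / q)) ^ μ (d / q) :=
    prod_pos fun q hq => by have := (Nat.prime_of_mem_primeFactors hq).pos; positivity
  have h3 := Real.log_le_log (by positivity) (h1.trans h2)
  rw [Real.log_mul (by positivity) hB.ne', Real.log_mul (by positivity) hA.ne', Real.log_pow,
    Real.log_pow, log_prod_pow Q (fun q hq => (hQ q hq).1.pos) (fun _ => Nat.totient d),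
    log_prod_pow _ (fun q hq => (Nat.prime_of_mem_primeFactors hq).pos)] at h3
  have h4 := Real.log_le_log (by positivity) (Nm_disc hd0)
  rw [Real.log_mul hN.ne' (by positivity), Real.log_pow, Real.log_pow, Real.log_pow] at h4
  have h5 := mul_le_mul_of_nonneg_left h4 (Nat.cast_nonneg (α := ℝ) (μ d))
  linarith

/-- The first nonzero Taylor coefficient at `1`. -/
theorem cyc_one {P : ℤ[X]} {μ : ℕ → ℕ} (hμ : ∀ e, cyclotomic e ℤ ^ μ e ∣ P)
    (hx : ¬ cyclotomic 1 ℤ ^ (μ 1 + 1) ∣ P) {Q : Finset ℕ} (hQ : ∀ q ∈ Q, q.Prime) :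
    (taylor 1 P).coeff (μ 1) ≠ 0 ∧
      ∑ q ∈ Q, (μ q : ℝ) * Real.log q ≤ Real.log |(((taylor 1 P).coeff (μ 1) : ℤ) : ℝ)| := by
  have h1 := core hμ squarefree_one hx (Q := Q) fun q hq =>
    ⟨hQ q hq, fun k => (hQ q hq).one_lt.ne' (Nat.dvd_one.1 k)⟩
  have h2 : taylor (1 : ℂ) (P.map (Int.castRingHom ℂ)) = (taylor 1 P).map (Int.castRingHom ℂ) := by
    rw [map_taylor, map_one]
  rw [IsPrimitiveRoot.primitiveRoots_one, prod_singleton, h2, coeff_map, eq_intCast,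
    Complex.norm_intCast, Nat.primeFactors_one, prod_empty, mul_one] at h1
  have hA : 0 < ∏ q ∈ Q, ((q : ℝ) ^ Nat.totient 1) ^ μ (1 * q) :=
    prod_pos fun q hq => by have := (hQ q hq).pos; positivity
  have h3 := (le_mul_of_one_le_left hA.le (one_le_pow₀ (one_le_deriv one_pos))).trans h1
  refine ⟨fun e => ?_, ?_⟩
  · rw [e, Int.cast_zero, abs_zero] at h3
    exact hA.not_ge h3
  · have h4 := Real.log_le_log hA h3
    rw [log_prod_pow Q (fun q hq => (hQ q hq).pos) (fun _ => Nat.totient 1)] at h4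
    simpa using h4

end Pool.Agent.Lib.MP_4f0d88_nt.DG
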