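import Mathlib

/-! Definitions for the degree bound: orders at roots of unity and the divisor graph. -/

set_option autoImplicit false

noncomputable section

namespace Pool.Agent.Lib.MP_4f0d88_nt.DG

open Polynomial Finset Real

/-- Order of `f` at the primitive `d`-th roots of unity. -/
def mu (f : ℤ[X]) (d : ℕ) : ℕ := multiplicity (cyclotomic d ℤ) f

/-- Squarefree `d ≤ Y` with all prime factors above `z`. -/
def FF (z Y : ℕ) : Finset ℕ :=
  (Icc 1 Y).filter fun d => Squarefree d ∧ ∀ q ∈ d.primeFactors, z < q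

/-- Primes `q > z` not dividing `d` with `d * q ≤ Y`. -/
def UU (z Y d : ℕ) : Finset ℕ := (Ioc z (Y / d)).filter fun q => q.Prime ∧ ¬ q ∣ d

/-- The operator on the divisor graph. -/
def LL (z Y : ℕ) (A : ℝ) (f : ℕ → ℝ) (d : ℕ) : ℝ :=
  d.totient * A * f d - ∑ q ∈ UU z Y d, d.totient * log q * f (d * q) -
    ∑ q ∈ d.primeFactors, (d / q).totient * log q * f (d / q)

/-- The killing rate at `d`. -/
def kap (z Y : ℕ) (A : ℝ) (d : ℕ) : ℝ :=
  A - ∑ q ∈ UU z Y d, log q / q - ∑ q ∈ d.primeFactors, q * log q / ((q : ℝ) - 1)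

/-- The energy of a test function `g` for a constant killing rate `K`. -/
def En (z Y : ℕ) (K : ℝ) (g : ℕ → ℝ) : ℝ :=
  ∑ d ∈ FF z Y, K * g d ^ 2 / d +
    ∑ d ∈ FF z Y, ∑ q ∈ UU z Y d, log q / (d * q) * (g d - g (d * q)) ^ 2

/-- The scale of the least prime factor. -/
def idx (I d : ℕ) : ℕ := if d = 1 then I else Nat.log 2 (Nat.log 2 d.minFac)

/-- The test function. -/
def tg (i0 I d : ℕ) : ℝ := ((idx I d : ℝ) - i0) / ((I : ℝ) - i0)

end Pool.Agent.Lib.MP_4f0d88_nt.DG
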