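import Pool.Agent.Lib.MP_4f0d88_nt.DG.Df

/-! Pigeonhole on the Taylor coefficients at `1` of polynomials with coefficients `0, 1`. -/

set_option autoImplicit false

noncomputable section

namespace Pool.Agent.Lib.MP_4f0d88_nt.DG

open Polynomial Finset Real

/-- The polynomial with coefficients `0, 1` and support `S`. -/
def pS (S : Finset ℕ) : ℤ[X] := ∑ n ∈ S, X ^ n

theorem coeff_pS (S : Finset ℕ) (n : ℕ) : (pS S).coeff n = if n ∈ S then 1 else 0 := by
  simp [pS, finsetSum_coeff, coeff_X_pow]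

theorem taylor_pS (S : Finset ℕ) (j : ℕ) :
    (taylor 1 (pS S)).coeff j = ((∑ n ∈ S, n.choose j : ℕ) : ℤ) := by
  simp [pS, map_sum, finsetSum_coeff, coeff_X_add_one_pow]

theorem sum_choose_le {S : Finset ℕ} {D : ℕ} (h : S ⊆ range D) (j : ℕ) :
    ∑ n ∈ S, n.choose j ≤ D.choose (j + 1) := by
  refine (sum_le_sum_of_subset h).trans (le_of_eq ?_)
  clear h
  induction D with
  | zero => simp
  | succ D ih => rw [sum_range_succ, ih, Nat.choose_succ_succ' D j, add_comm]

theorem pig {N D n : ℕ} {E : ℝ} (hE : 0 ≤ E) (hND : N ≤ D) {B : Finset (Finset ℕ)}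
    (hB : ∀ S ∈ B, S ⊆ range D ∧ S.card ≤ n) (hc : (E + 1) ^ N < B.card)
    (h : ∀ f : ℤ[X], f ≠ 0 → (∀ n, |f.coeff n| ≤ 1) → f.natDegree < D → mu f 1 < N →
      (D.choose (mu f 1 + 1) : ℝ) ≤ E * |(((taylor 1 f).coeff (mu f 1) : ℤ) : ℝ)|) :
    ∃ P : ℤ[X], P ≠ 0 ∧ (∀ i, P.coeff i = -1 ∨ P.coeff i = 0 ∨ P.coeff i = 1) ∧
      (X - 1) ^ N ∣ P ∧ P.natDegree < D ∧ P.support.card ≤ 2 * n := by
  let t : Finset ℕ → ℕ → ℝ := fun S j => ((∑ n ∈ S, n.choose j : ℕ) : ℝ) * E / D.choose (j + 1)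
  let F : Finset ℕ → Fin N → ℕ := fun S j => ⌊t S j⌋₊
  have hpos : ∀ j, j < N → (0 : ℝ) < D.choose (j + 1) := fun j hj => by
    exact_mod_cast Nat.choose_pos (by omega)
  have hmap : ∀ S ∈ B, F S ∈ Fintype.piFinset fun _ : Fin N => range (⌊E⌋₊ + 1) := by
    intro S hS
    rw [Fintype.mem_piFinset]
    intro j
    rw [mem_range, Nat.lt_succ_iff]
    refine Nat.floor_mono ?_
    have h1 : ((∑ n ∈ S, n.choose j : ℕ) : ℝ) ≤ D.choose (j + 1) := by
      exact_mod_cast sum_choose_le (hB S hS).1 j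
    rw [div_le_iff₀ (hpos j j.2), mul_comm]
    exact mul_le_mul_of_nonneg_left h1 hE
  have hcard : (Fintype.piFinset fun _ : Fin N => range (⌊E⌋₊ + 1)).card < B.card := by
    rw [Fintype.card_piFinset]
    simp only [card_range, prod_const, card_univ, Fintype.card_fin]
    have : (((⌊E⌋₊ + 1 : ℕ) : ℝ)) ^ N < B.card := by
      refine lt_of_le_of_lt (pow_le_pow_left₀ (by positivity) ?_ N) hc
      push_cast
      linarith [Nat.floor_le hE]
    exact_mod_cast this
  obtain ⟨S, hS, T, hT, hne, hF⟩ := exists_ne_map_eq_of_card_lt_of_maps_to hcard hmap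
  have h0 : pS S - pS T ≠ 0 := by
    intro h0
    apply hne
    ext n
    have := congrArg (fun f : ℤ[X] => f.coeff n) h0
    simp only [coeff_sub, coeff_pS, coeff_zero] at this
    by_cases a : n ∈ S <;> by_cases b : n ∈ T <;> simp_all
  have h1 : ∀ n, |(pS S - pS T).coeff n| ≤ 1 := fun n => by
    simp only [coeff_sub, coeff_pS]
    split_ifs <;> simp
  have h2 : (pS S - pS T).natDegree < D := by
    by_contra hh
    apply mt leadingCoeff_eq_zero.1 h0
    have a : (pS S - pS T).natDegree ∉ S := fun a => hh (mem_range.1 ((hB S hS).1 a))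
    have b : (pS S - pS T).natDegree ∉ T := fun a => hh (mem_range.1 ((hB T hT).1 a))
    rw [leadingCoeff, coeff_sub, coeff_pS, coeff_pS, if_neg a, if_neg b, sub_zero]
  have h6 : (pS S - pS T).support.card ≤ 2 * n := by
    have : (pS S - pS T).support ⊆ S ∪ T := fun i hi => by
      by_contra hh
      rw [mem_union, not_or] at hh
      rw [mem_support_iff, coeff_sub, coeff_pS, coeff_pS, if_neg hh.1, if_neg hh.2] at hi
      exact hi (sub_zero 0)
    have a := (card_le_card this).trans (card_union_le S T)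
    have b := (hB S hS).2
    have c := (hB T hT).2
    omega
  refine ⟨_, h0, fun i => by have := abs_le.1 (h1 i); omega, ?_, h2, h6⟩
  by_contra hd
  have hlt : mu (pS S - pS T) 1 < N := by
    by_contra hh
    apply hd
    have := pow_dvd_of_le_multiplicity (a := cyclotomic 1 ℤ) (b := pS S - pS T) (not_lt.1 hh)
    rwa [cyclotomic_one] at this
  have h3 := h _ h0 h1 h2 hlt
  generalize mu (pS S - pS T) 1 = j at hlt h3
  have h4 : ⌊t S j⌋₊ = ⌊t T j⌋₊ := congrFun hF ⟨j, hlt⟩
  have hp := hpos j hlt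
  have tS : 0 ≤ t S j := by positivity
  have tT : 0 ≤ t T j := by positivity
  have h5 : |t S j - t T j| < 1 := by
    have a1 := Nat.floor_le tS
    have a2 := Nat.lt_floor_add_one (t S j)
    have a3 := Nat.floor_le tT
    have a4 := Nat.lt_floor_add_one (t T j)
    rw [h4] at a1 a2
    rw [abs_lt]
    constructor <;> linarith
  rw [map_sub, coeff_sub, taylor_pS, taylor_pS] at h3
  simp only [t] at h5
  rw [← sub_div, ← sub_mul, abs_div, abs_of_pos hp, div_lt_one hp, abs_mul, abs_of_nonneg hE] at h5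
  rw [Int.cast_sub, Int.cast_natCast, Int.cast_natCast] at h3
  linarith

end Pool.Agent.Lib.MP_4f0d88_nt.DG
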