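import Pool.Agent.Lib.MP_4f0d88_nt.DG.Gap
import Pool.Agent.Lib.MP_4f0d88_nt.DG.Pig

/-! Choice of the parameters. -/

set_option autoImplicit false

noncomputable section

namespace Pool.Agent.Lib.MP_4f0d88_nt.DG

open Polynomial Finset Real

theorem two_pow_ge {a : ℕ} (h : 16 ≤ a) : 4000 * a ≤ 2 ^ a := by
  induction a, h using Nat.le_induction with
  | base => norm_num
  | succ a h ih => rw [pow_succ]; omega

theorem two_pow_ge' {a : ℕ} (h : 6 ≤ a) : 18 + 5 * a ≤ 2 ^ a := by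
  induction a, h using Nat.le_induction with
  | base => norm_num
  | succ a h ih => rw [pow_succ]; omega

theorem scales {n N : ℕ} (h : 2 ^ 2 ^ n ≤ N) : ∃ I a : ℕ, n + 1 ≤ I ∧ N < 2 ^ 2 ^ I ∧
    2 ^ I ≤ 2 * a ∧ 2 ^ a ≤ N := by
  have N0 : N ≠ 0 := by have := Nat.two_pow_pos (2 ^ n); omega
  have h1 : 2 ^ n ≤ Nat.log 2 N := Nat.le_log_of_pow_le one_lt_two h
  have a0 : Nat.log 2 N ≠ 0 := by have := Nat.two_pow_pos n; omega
  have h2 : n ≤ Nat.log 2 (Nat.log 2 N) := Nat.le_log_of_pow_le one_lt_two h1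
  refine ⟨Nat.log 2 (Nat.log 2 N) + 1, Nat.log 2 N, by omega, ?_, ?_, Nat.pow_log_le_self 2 N0⟩
  · refine (Nat.lt_pow_succ_log_self one_lt_two N).trans_le (Nat.pow_le_pow_right two_pos ?_)
    exact Nat.lt_pow_succ_log_self one_lt_two _
  · have := Nat.pow_log_le_self 2 a0
    rw [pow_succ]; omega

theorem main0 : ∃ n0 : ℕ, ∀ (N i0 l a D n : ℕ) (B : Finset (Finset ℕ)), n0 ≤ i0 → 1 ≤ l → l ≤ i0 →
    N < 2 ^ 2 ^ (i0 + l) → 2 ^ (i0 + l) ≤ 2 * a → 2 ^ a ≤ N → N ^ 2 ≤ D → D ≤ N ^ 3 →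
    log (D / N ^ 2) ≤ 2 ^ i0 → (∀ S ∈ B, S ⊆ range D ∧ S.card ≤ n) →
    exp (530 * N ^ 2 * 2 ^ (i0 + l) / l) < B.card →
    ∃ P : ℤ[X], P ≠ 0 ∧ (∀ i, P.coeff i = -1 ∨ P.coeff i = 0 ∨ P.coeff i = 1) ∧
      (X - 1) ^ N ∣ P ∧ P.natDegree < D ∧ P.support.card ≤ 2 * n := by
  obtain ⟨c, hc⟩ := kap_le
  refine ⟨⌈c⌉₊ + 6, fun N i0 l a D n B h0 l1 l2 hN ha haN hD1 hD2 hD3 hB hcard => ?_⟩
  set L := 2 ^ (i0 + l) with hL
  have hLI : i0 + l < L := Nat.lt_two_pow_self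
  have L32 : 32 ≤ L := by
    have : 2 ^ 5 ≤ L := Nat.pow_le_pow_right two_pos (by omega)
    omega
  have hLN : 2000 * L ≤ N := by have := two_pow_ge (a := a) (by omega); omega
  set Y := N / (3 * L) with hY
  have Y1 : 1 ≤ Y := Nat.div_pos (by omega) (by omega)
  have Y2 : Y * (3 * L) ≤ N := Nat.div_mul_le_self _ _
  have Y3 : N ≤ 6 * L * Y := by
    have := Nat.lt_mul_div_succ N (show 0 < 3 * L by omega)
    rw [← hY] at this
    nlinarith
  have YN : Y ≤ N := Nat.div_le_self _ _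
  have N1 : 1 ≤ N := by omega
  have N0 : (0 : ℝ) < N := by exact_mod_cast N1
  have Y0 : (0 : ℝ) < Y := by exact_mod_cast Y1
  have L0 : (0 : ℝ) < L := by exact_mod_cast (by omega : 0 < L)
  have l0 : (1 : ℝ) ≤ l := by exact_mod_cast l1
  have D1 : (N : ℝ) ^ 2 ≤ D := by exact_mod_cast hD1
  have D2 : (D : ℝ) ≤ N ^ 3 := by exact_mod_cast hD2
  have D0 : (0 : ℝ) < D := lt_of_lt_of_le (by positivity) D1
  have lg2 : log 2 ≤ 1 := by linarith [log_two_lt_d9]
  have logN : log N ≤ L := by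
    have : (N : ℝ) ≤ 2 ^ L := by exact_mod_cast hN.le
    have := log_le_log N0 this
    rw [log_pow] at this
    nlinarith
  have logD : log D ≤ 3 * L := by
    have := log_le_log D0 D2
    rw [log_pow] at this
    push_cast at this
    linarith
  have hYN : (Y : ℝ) * log (D * Y / N) ≤ N := by
    have a1 : log (D * Y / N) ≤ log D := by
      refine log_le_log (by positivity) ?_
      rw [div_le_iff₀ N0]
      exact mul_le_mul_of_nonneg_left (by exact_mod_cast YN) D0.le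
    have a2 : (Y : ℝ) * (3 * L) ≤ N := by exact_mod_cast Y2
    nlinarith
  have hYI : Y ≤ 2 ^ 2 ^ (i0 + l) := YN.trans hN.le
  have hW : ∀ d ∈ FF (2 ^ 2 ^ i0) Y, d.primeFactors.card ≤ 2 ^ l := fun d hd => by
    have := omega_le (Nat.le_add_right i0 l) hYI hd
    rwa [Nat.add_sub_cancel_left] at this
  have hk : ∀ d ∈ FF (2 ^ 2 ^ i0) Y,
      kap (2 ^ 2 ^ i0) Y (log (D / N) + (2 ^ l : ℕ) + 4) d ≤ 5 * 2 ^ i0 := fun d hd => by
    have a1 := hc _ Y d (log (D / N) + (2 ^ l : ℕ) + 4) Nat.one_le_two_pow hd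
    have a2 : (d.primeFactors.card : ℝ) ≤ (2 ^ l : ℕ) := by exact_mod_cast hW d hd
    have a3 : ((2 ^ l : ℕ) : ℝ) ≤ 2 ^ i0 := by exact_mod_cast Nat.pow_le_pow_right two_pos l2
    have a4 : log ((2 ^ 2 ^ i0 : ℕ) : ℝ) ≤ 2 ^ i0 := by
      push_cast
      rw [log_pow]
      push_cast
      exact mul_le_of_le_one_right (by positivity) lg2
    have a5 : log (D / N) - log Y ≤ log (D / N ^ 2) + (3 + (i0 + l)) := by
      have b1 : (N : ℝ) ≤ 6 * L * Y := by exact_mod_cast Y3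
      have b2 : log (6 * L) ≤ 3 + (i0 + l) := by
        have : (6 * L : ℝ) ≤ 2 ^ (3 + (i0 + l)) := by
          rw [pow_add, hL]; push_cast
          have : (0 : ℝ) < 2 ^ (i0 + l) := by positivity
          linarith
        have := log_le_log (by positivity) this
        rw [log_pow] at this
        push_cast at this
        have p : (0 : ℝ) ≤ 3 + (i0 + l) := by positivity
        nlinarith
      have b3 : log (D / N) - log Y ≤ log (D / N ^ 2) + log (6 * L) := by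
        rw [← log_div (by positivity) Y0.ne', ← log_mul (by positivity) (by positivity)]
        refine log_le_log (by positivity) ?_
        rw [div_div, div_mul_eq_mul_div, div_le_div_iff₀ (by positivity) (by positivity)]
        have := mul_le_mul_of_nonneg_left b1 (by positivity : (0 : ℝ) ≤ D * N)
        nlinarith
      linarith
    have a6 : (18 + 5 * i0 : ℝ) ≤ 2 ^ i0 := by exact_mod_cast two_pow_ge' (a := i0) (by omega)
    have a7 : c ≤ i0 := (Nat.le_ceil c).trans (by exact_mod_cast (by omega : ⌈c⌉₊ ≤ i0))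
    have a8 : (l : ℝ) ≤ i0 := by exact_mod_cast l2
    have a9 : (0 : ℝ) ≤ i0 := by positivity
    linarith
  have hE := energy_le (i0 := i0) (I := i0 + l) (Y := Y) (by omega) hYI
    (K := 5 * 2 ^ i0) (by positivity)
  have hE0 := En_nonneg (2 ^ 2 ^ i0) Y (K := 5 * 2 ^ i0) (by positivity) (tg i0 (i0 + l))
  have hg : tg i0 (i0 + l) 1 = 1 := by
    unfold tg idx
    rw [if_pos rfl]
    refine div_self ?_
    push_cast
    linarith
  refine pig (E := exp (2 * N * En (2 ^ 2 ^ i0) Y (5 * 2 ^ i0) (tg i0 (i0 + l)) + N + log D))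
    (exp_pos _).le (by nlinarith) hB (lt_of_le_of_lt ?_ hcard) fun f hf h1 h2 h3 =>
      gap hg Y1 N1 (by nlinarith) hYN hW hk (by positivity) hf h1 h2 h3
  generalize En (2 ^ 2 ^ i0) Y (5 * 2 ^ i0) (tg i0 (i0 + l)) = e at hE hE0 ⊢
  have e1 : e ≤ 264 * (L / l) := by
    rw [Nat.add_sub_cancel_left] at hE
    push_cast at hE
    rw [add_sub_cancel_left] at hE
    have b1 : (24 * (5 * 2 ^ i0) * 2 ^ l / l ^ 2 : ℝ) ≤ 120 * (L / l) := by
      have : (24 * (5 * 2 ^ i0) * 2 ^ l / l ^ 2 : ℝ) = 120 * (L / l) / l := by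
        rw [hL]; push_cast; rw [pow_add]; field_simp; norm_num
      rw [this]
      exact div_le_self (by positivity) l0
    have b2 : (144 * 2 ^ (i0 + l) / l : ℝ) = 144 * (L / l) := by rw [hL]; push_cast; ring
    linarith
  have e2 : (1 : ℝ) ≤ L / l := by
    rw [one_le_div (by linarith)]
    exact_mod_cast (by omega : l ≤ L)
  have e3 : (2000 * L : ℝ) ≤ N := by exact_mod_cast hLN
  have e4 : (32 : ℝ) ≤ L := by exact_mod_cast L32
  have logD0 : 0 ≤ log (D : ℝ) := log_natCast_nonneg D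
  set x := 2 * N * e + N + log D with hx
  have x0 : 0 ≤ x := by positivity
  have e5 : exp x + 1 ≤ exp (x + 1) := by
    rw [exp_add x 1]
    have k1 := one_le_exp x0
    have k2 := mul_le_mul_of_nonneg_left (add_one_le_exp (1 : ℝ)) (exp_pos x).le
    linarith
  refine (pow_le_pow_left₀ (by positivity) e5 N).trans ?_
  rw [← exp_nat_mul, exp_le_exp]
  have e6 : (530 * N ^ 2 * 2 ^ (i0 + l) / l : ℝ) = N * (530 * N * (L / l)) := by
    rw [hL]; push_cast; ring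
  rw [e6]
  refine mul_le_mul_of_nonneg_left ?_ N0.le
  have := mul_le_mul_of_nonneg_left e1 N0.le
  have := mul_le_mul_of_nonneg_left e2 N0.le
  nlinarith

theorem log_bounds {N I a : ℕ} (hN : N < 2 ^ 2 ^ I) (ha : 2 ^ I ≤ 2 * a) (haN : 2 ^ a ≤ N) :
    log N ≤ 2 ^ I ∧ (2 : ℝ) ^ I ≤ 3 * log N := by
  have N0 : (0 : ℝ) < N := by exact_mod_cast lt_of_lt_of_le (Nat.two_pow_pos a) haN
  have h1 : (N : ℝ) ≤ 2 ^ 2 ^ I := by exact_mod_cast hN.le
  have h2 : (2 : ℝ) ^ a ≤ N := by exact_mod_cast haN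
  have h3 : (2 : ℝ) ^ I ≤ 2 * a := by exact_mod_cast ha
  have h4 := log_le_log N0 h1
  have h5 := log_le_log (by positivity) h2
  rw [log_pow] at h4 h5
  push_cast at h4
  have p1 : (0 : ℝ) < 2 ^ I := by positivity
  have p2 : (0 : ℝ) ≤ a := by positivity
  constructor <;> nlinarith [log_two_lt_d9, log_two_gt_d9]

theorem dense : ∃ N0 : ℕ, ∀ N ≥ N0, ∃ P : ℤ[X], P ≠ 0 ∧
    (∀ i, P.coeff i = -1 ∨ P.coeff i = 0 ∨ P.coeff i = 1) ∧ (X - 1) ^ N ∣ P ∧
      (P.natDegree : ℝ) ≤ 18000 * N ^ 2 * log N / log (log N) := by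
  obtain ⟨n0, h⟩ := main0
  refine ⟨2 ^ 2 ^ (2 * (n0 + 6)), fun N hN => ?_⟩
  obtain ⟨I, a, hI, h1, h2, h3⟩ := scales hN
  obtain ⟨b1, b2⟩ := log_bounds h1 h2 h3
  obtain ⟨l, hl, hl'⟩ : ∃ l, 2 * l ≤ I ∧ I ≤ 2 * l + 1 := ⟨I / 2, by omega, by omega⟩
  obtain ⟨i0, rfl⟩ : ∃ i0, I = i0 + l := ⟨I - l, by omega⟩
  set L := 2 ^ (i0 + l) with hL
  have hLI : i0 + l < L := Nat.lt_two_pow_self
  have L32 : 32 ≤ L := by
    have : 2 ^ 5 ≤ L := Nat.pow_le_pow_right two_pos (by omega)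
    omega
  have hLN : 2000 * L ≤ N := by have := two_pow_ge (a := a) (by omega); omega
  have hLr : (L : ℝ) = 2 ^ (i0 + l) := by rw [hL]; push_cast; rfl
  rw [← hLr] at b1 b2
  have l0 : (0 : ℝ) < l := by exact_mod_cast (by omega : 0 < l)
  have N0 : (0 : ℝ) < N := by exact_mod_cast (by omega : 0 < N)
  have e2 : (1 : ℝ) ≤ L / l := by
    rw [one_le_div l0]
    exact_mod_cast (by omega : l ≤ L)
  obtain ⟨M, M1, M2, M3⟩ : ∃ M : ℕ, M ≤ 2000 * L ∧ 1000 * ((L : ℝ) / l) ≤ M ∧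
      (M : ℝ) ≤ 2000 * (L / l) := by
    refine ⟨1000 * (L / l + 1), by have := Nat.div_le_self L l; omega, ?_, ?_⟩
    · have := Nat.lt_mul_div_succ L (show 0 < l by omega)
      have k : (L : ℝ) ≤ l * ((L / l + 1 : ℕ) : ℝ) := by exact_mod_cast this.le
      rw [← div_le_iff₀' l0] at k
      rw [Nat.cast_mul, Nat.cast_ofNat]
      linarith
    · have k : ((L / l : ℕ) : ℝ) ≤ L / l := Nat.cast_div_le
      rw [Nat.cast_mul, Nat.cast_ofNat, Nat.cast_add, Nat.cast_one]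
      linarith
  have M0 : (1 : ℝ) ≤ M := by linarith
  obtain ⟨P, p1, p2, p3, p4, -⟩ := h N i0 l a (N ^ 2 * M) (N ^ 2 * M) (range (N ^ 2 * M)).powerset
    (by omega) (by omega) (by omega) h1 h2 h3 (Nat.le_mul_of_pos_right _ (by exact_mod_cast (by linarith : (0 : ℝ) < M)))
    (by rw [pow_succ N 2]; exact Nat.mul_le_mul_left _ (by omega))
    (by
      push_cast
      rw [mul_div_cancel_left₀ _ (by positivity)]
      have k1 : (M : ℝ) ≤ 2 ^ (11 + (i0 + l)) := by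
        have : (M : ℝ) ≤ 2000 * L := by exact_mod_cast M1
        have : (0 : ℝ) ≤ L := by positivity
        rw [pow_add, ← hLr]
        linarith
      have k2 := log_le_log (by linarith) k1
      rw [log_pow] at k2
      push_cast at k2
      have k3 : (18 + 5 * i0 : ℝ) ≤ 2 ^ i0 := by exact_mod_cast two_pow_ge' (a := i0) (by omega)
      have k4 : (l : ℝ) ≤ i0 := by exact_mod_cast (by omega : l ≤ i0)
      nlinarith [log_two_lt_d9])
    (fun S hS => ⟨mem_powerset.1 hS, by simpa using card_le_card (mem_powerset.1 hS)⟩)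
    (by
      rw [card_powerset, card_range, ← hLr]
      push_cast
      rw [← exp_log (by positivity : (0 : ℝ) < 2 ^ (N ^ 2 * M)), exp_lt_exp, log_pow]
      push_cast
      have k : (530 * N ^ 2 * L / l : ℝ) = N ^ 2 * (530 * (L / l)) := by ring
      rw [k, mul_assoc]
      refine mul_lt_mul_of_pos_left ?_ (by positivity)
      nlinarith [log_two_gt_d9])
  refine ⟨P, p1, p2, p3, ?_⟩
  have q1 : (P.natDegree : ℝ) ≤ N ^ 2 * M := by exact_mod_cast p4.le
  have L32' : (32 : ℝ) ≤ L := by exact_mod_cast L32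
  have q2 : 0 < log (log (N : ℝ)) := log_pos (by linarith)
  have q3 : log (log (N : ℝ)) ≤ 3 * l := by
    have k := log_le_log (by linarith) b1
    rw [hLr, log_pow] at k
    have k2 : ((i0 + l : ℕ) : ℝ) ≤ 3 * l := by exact_mod_cast (by omega : i0 + l ≤ 3 * l)
    have k3 : (0 : ℝ) ≤ (i0 + l : ℕ) := by positivity
    nlinarith [log_two_lt_d9]
  have q4 : (L : ℝ) / l ≤ 9 * log N / log (log N) := by
    rw [div_le_div_iff₀ l0 q2]
    nlinarith
  calc (P.natDegree : ℝ) ≤ N ^ 2 * (2000 * (9 * log N / log (log N))) :=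
        q1.trans (mul_le_mul_of_nonneg_left (by linarith) (by positivity))
    _ = _ := by ring

theorem sparse : ∃ N0 : ℕ, ∀ N ≥ N0, ∀ (δ : ℝ) (D n : ℕ), 0 < δ → δ ≤ 1 / 2 →
    1 ≤ δ ^ 2 * log N → (D : ℝ) ≤ (N : ℝ) ^ (2 + δ) →
    exp (3000 * N ^ 2 * log N / log (1 / δ)) ≤ D.choose n →
    ∃ P : ℤ[X], P ≠ 0 ∧ (∀ i, P.coeff i = -1 ∨ P.coeff i = 0 ∨ P.coeff i = 1) ∧
      (X - 1) ^ N ∣ P ∧ P.natDegree < D ∧ P.support.card ≤ 2 * n := by
  obtain ⟨n0, h⟩ := main0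
  refine ⟨2 ^ 2 ^ (2 * (n0 + 6)), fun N hN δ D n d0 d1 d2 hD hc => ?_⟩
  obtain ⟨I, a, hI, h1, h2, h3⟩ := scales hN
  obtain ⟨b1, b2⟩ := log_bounds h1 h2 h3
  have d3 : 2 ≤ 1 / δ := by rw [le_div_iff₀ d0]; linarith
  obtain ⟨l, l1, l2⟩ := exists_nat_pow_near (x := 1 / δ) (y := 2) (by linarith) one_lt_two
  have l3 : 1 ≤ l := by
    by_contra k
    have : l = 0 := by omega
    rw [this] at l2
    norm_num at l2 d3
    linarith
  have l4 : δ * 2 ^ l ≤ 1 := by rwa [le_div_iff₀' d0] at l1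
  have N1 : 1 ≤ N := lt_of_lt_of_le (Nat.two_pow_pos a) h3
  have N1' : (1 : ℝ) ≤ N := by exact_mod_cast N1
  have lN : 0 ≤ log (N : ℝ) := log_natCast_nonneg N
  have l5 : 2 * l ≤ I := by
    have k1 : (2 : ℝ) ^ (2 * l) ≤ 2 ^ I := by
      have k2 : (δ * 2 ^ l) ^ 2 ≤ 1 := pow_le_one₀ (by positivity) l4
      have k3 := mul_le_mul_of_nonneg_left d2 (by positivity : (0 : ℝ) ≤ (2 ^ l) ^ 2)
      have k4 := mul_le_mul_of_nonneg_right k2 lN
      rw [mul_comm 2 l, pow_mul]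
      nlinarith
    exact (pow_le_pow_iff_right₀ one_lt_two).1 k1
  obtain ⟨i0, rfl⟩ : ∃ i0, I = i0 + l := ⟨I - l, by omega⟩
  have l0 : (1 : ℝ) ≤ l := by exact_mod_cast l3
  have g0 : 0 < log (1 / δ) := log_pos (by linarith)
  have g1 : log (1 / δ) ≤ 1.4 * l := by
    have k := log_le_log (by linarith) l2.le
    rw [log_pow] at k
    push_cast at k
    nlinarith [log_two_lt_d9]
  have g2 : (2 : ℝ) ^ (i0 + l) / l ≤ 4.2 * log N / log (1 / δ) := by
    rw [div_le_div_iff₀ (by linarith) g0]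
    have : (0 : ℝ) < 2 ^ (i0 + l) := by positivity
    nlinarith
  have g3 : (1 : ℝ) ≤ 2 ^ (i0 + l) / l := by
    rw [one_le_div (by linarith)]
    exact_mod_cast (Nat.le_add_left l i0).trans Nat.lt_two_pow_self.le
  have g4 : (530 * N ^ 2 * 2 ^ (i0 + l) / l : ℝ) < 3000 * N ^ 2 * log N / log (1 / δ) := by
    have e1 : (530 * N ^ 2 * 2 ^ (i0 + l) / l : ℝ) = N ^ 2 * (530 * (2 ^ (i0 + l) / l)) := by ring
    have e2 : (3000 * N ^ 2 * log N / log (1 / δ) : ℝ) =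
        N ^ 2 * (3000 / 4.2 * (4.2 * log N / log (1 / δ))) := by ring
    rw [e1, e2]
    exact mul_lt_mul_of_pos_left (by linarith) (by positivity)
  have g5 : N ^ 2 ≤ D := by
    have k1 : (D.choose n : ℝ) ≤ 2 ^ D := by exact_mod_cast Nat.choose_le_two_pow D n
    have k2 := log_le_log (exp_pos _) (((exp_lt_exp.2 g4).le.trans hc).trans k1)
    rw [log_exp, log_pow] at k2
    have e1 : (530 * N ^ 2 * 2 ^ (i0 + l) / l : ℝ) = N ^ 2 * (530 * (2 ^ (i0 + l) / l)) := by ring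
    have k3 : (N : ℝ) ^ 2 ≤ D := by
      have p1 : (0 : ℝ) ≤ D := by positivity
      have p2 : (0 : ℝ) ≤ N ^ 2 := by positivity
      nlinarith [log_two_lt_d9]
    exact_mod_cast k3
  have g6 : D ≤ N ^ 3 := by
    have k : (N : ℝ) ^ (2 + δ) ≤ (N : ℝ) ^ ((3 : ℕ) : ℝ) :=
      rpow_le_rpow_of_exponent_le N1' (by push_cast; linarith)
    rw [rpow_natCast] at k
    exact_mod_cast hD.trans k
  refine h N i0 l a D n (powersetCard n (range D)) (by omega) l3 (by omega) h1 h2 h3 g5 g6 ?_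
    (fun S hS => ⟨(mem_powersetCard.1 hS).1, (mem_powersetCard.1 hS).2.le⟩) ?_
  · have D0 : (0 : ℝ) < D := by exact_mod_cast lt_of_lt_of_le (Nat.pow_pos N1) g5
    have k := log_le_log D0 hD
    rw [log_rpow (by linarith)] at k
    rw [log_div D0.ne' (by positivity), log_pow]
    push_cast
    have k2 := mul_le_mul_of_nonneg_left b1 d0.le
    have k3 := mul_le_mul_of_nonneg_left l4 (by positivity : (0 : ℝ) ≤ 2 ^ i0)
    rw [pow_add] at k2
    nlinarith
  · rw [card_powersetCard, card_range]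
    exact (exp_lt_exp.2 g4).trans_le hc

end Pool.Agent.Lib.MP_4f0d88_nt.DG
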