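import Pool.Agent.Lib.MP_4f0d88_nt.DG.Df
import Pool.Agent.Lib.MP_7615ea_nt.Mert

/-! Mertens bounds for the killing rate. -/

set_option autoImplicit false

noncomputable section

namespace Pool.Agent.Lib.MP_4f0d88_nt.DG

open Finset Real

theorem numA_log {d : ℕ} (h : Squarefree d) : ∑ q ∈ d.primeFactors, log q = log d := by
  conv_rhs => rw [← Nat.prod_primeFactors_of_squarefree h]
  rw [Nat.cast_prod, Real.log_prod]
  intro q hq
  exact_mod_cast (Nat.prime_of_mem_primeFactors hq).ne_zero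

theorem numA_term {q : ℕ} (hq : q.Prime) :
    log q ≤ q * log q / ((q : ℝ) - 1) ∧ q * log q / ((q : ℝ) - 1) ≤ log q + 1 ∧
      0 ≤ log q / q ∧ log q / q ≤ 1 := by
  have h2 : (2 : ℝ) ≤ q := by exact_mod_cast hq.two_le
  have h0 : 0 ≤ log q := log_nonneg (by linarith)
  have h1 : log q ≤ q - 1 := log_le_sub_one_of_pos (by linarith)
  refine ⟨?_, ?_, by positivity, ?_⟩
  · rw [le_div_iff₀ (by linarith)]
    nlinarith
  · rw [div_le_iff₀ (by linarith)]
    nlinarith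
  · rw [div_le_one (by linarith)]
    linarith

theorem numA_div {Y d : ℕ} (h1 : 1 ≤ d) (h2 : d ≤ Y) :
    1 ≤ Y / d ∧ log ((Y / d : ℕ) : ℝ) ≤ log Y - log d ∧
      log Y - log d - log 2 ≤ log ((Y / d : ℕ) : ℝ) := by
  have h3 : 1 ≤ Y / d := Nat.div_pos h2 h1
  have hd : (0 : ℝ) < d := by exact_mod_cast h1
  have hY : (0 : ℝ) < Y := by exact_mod_cast h1.trans h2
  have h4 : (1 : ℝ) ≤ ((Y / d : ℕ) : ℝ) := by exact_mod_cast h3
  refine ⟨h3, ?_, ?_⟩
  · rw [← log_div hY.ne' hd.ne']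
    exact log_le_log (by linarith) Nat.cast_div_le
  · rw [← log_div hY.ne' hd.ne', ← log_div (by positivity) two_ne_zero]
    refine log_le_log (by positivity) ?_
    have h5 : (Y : ℝ) < d * (((Y / d : ℕ) : ℝ) + 1) := by
      exact_mod_cast Nat.lt_mul_div_succ Y h1
    rw [div_div, div_le_iff₀ (by positivity)]
    nlinarith

theorem kap_ge {z Y d : ℕ} (A : ℝ) (hd : d ∈ FF z Y) :
    A - log Y - 2 - d.primeFactors.card ≤ kap z Y A d := by
  simp only [FF, mem_filter, mem_Icc] at hd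
  obtain ⟨⟨h1, h2⟩, h3, -⟩ := hd
  obtain ⟨k1, k2, -⟩ := numA_div h1 h2
  have a1 : ∑ q ∈ UU z Y d, log q / q ≤ ∑ q ∈ Nat.primesLE (Y / d), log q / q := by
    refine sum_le_sum_of_subset_of_nonneg (fun q hq => ?_) fun q hq _ =>
      (numA_term (Nat.prime_of_mem_primesLE hq)).2.2.1
    simp only [UU, mem_filter, mem_Ioc] at hq
    exact Nat.mem_primesLE.2 ⟨hq.1.2, hq.2.1⟩
  have a2 := MP_778b46_nt.sum_log_div_le (Y / d) k1
  have a3 : ∑ q ∈ d.primeFactors, q * log q / ((q : ℝ) - 1) ≤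
      ∑ q ∈ d.primeFactors, (log q + 1) :=
    sum_le_sum fun q hq => (numA_term (Nat.prime_of_mem_primeFactors hq)).2.1
  rw [sum_add_distrib, numA_log h3, sum_const, nsmul_eq_mul, mul_one] at a3
  have a4 : log 4 ≤ 2 := by
    rw [show (4 : ℝ) = 2 ^ 2 by norm_num, log_pow]
    have := log_two_lt_d9
    push_cast
    linarith
  unfold kap
  linarith

theorem kap_le : ∃ c : ℝ, ∀ (z Y d : ℕ) (A : ℝ), 1 ≤ z → d ∈ FF z Y →
    kap z Y A d ≤ A - log Y + log z + d.primeFactors.card + c := by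
  obtain ⟨c, hc⟩ := MP_7615ea_nt.mertens_lower
  refine ⟨c + log 4 + log 2, fun z Y d A hz hd => ?_⟩
  simp only [FF, mem_filter, mem_Icc] at hd
  obtain ⟨⟨h1, h2⟩, h3, -⟩ := hd
  obtain ⟨k1, -, k3⟩ := numA_div h1 h2
  have hn : ∀ q : ℕ, 0 ≤ log q / q := fun q => div_nonneg (log_natCast_nonneg q) (Nat.cast_nonneg q)
  have a1 : ∑ q ∈ Nat.primesLE (Y / d), log q / q ≤
      ∑ q ∈ (UU z Y d ∪ Nat.primesLE z) ∪ d.primeFactors, log q / q := by
    refine sum_le_sum_of_subset_of_nonneg (fun q hq => ?_) fun q _ _ => hn q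
    obtain ⟨q1, q2⟩ := Nat.mem_primesLE.1 hq
    simp only [UU, mem_union, mem_filter, mem_Ioc, Nat.mem_primesLE, Nat.mem_primeFactors]
    by_cases b1 : q ∣ d
    · exact Or.inr ⟨q2, b1, by omega⟩
    · by_cases b2 : q ≤ z
      · exact Or.inl (Or.inr ⟨b2, q2⟩)
      · exact Or.inl (Or.inl ⟨⟨by omega, q1⟩, q2, b1⟩)
  have hu : ∀ s t : Finset ℕ, ∑ q ∈ s ∪ t, log q / q ≤
      ∑ q ∈ s, log q / q + ∑ q ∈ t, log (q : ℝ) / q := fun s t => by
    rw [← sum_union_inter]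
    exact le_add_of_nonneg_right (sum_nonneg fun q _ => hn q)
  have a2 := hu (UU z Y d ∪ Nat.primesLE z) d.primeFactors
  have a3 := hu (UU z Y d) (Nat.primesLE z)
  have a4 := MP_778b46_nt.sum_log_div_le z hz
  have a5 := hc (Y / d) k1
  have a6 : ∑ q ∈ d.primeFactors, log q / q ≤ ∑ q ∈ d.primeFactors, (1 : ℝ) :=
    sum_le_sum fun q hq => (numA_term (Nat.prime_of_mem_primeFactors hq)).2.2.2
  rw [sum_const, nsmul_eq_mul, mul_one] at a6
  have a7 : ∑ q ∈ d.primeFactors, log q ≤ ∑ q ∈ d.primeFactors, q * log q / ((q : ℝ) - 1) :=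
    sum_le_sum fun q hq => (numA_term (Nat.prime_of_mem_primeFactors hq)).1
  rw [numA_log h3] at a7
  unfold kap
  linarith

theorem omega_le {i0 I Y d : ℕ} (hi : i0 ≤ I) (hY : Y ≤ 2 ^ 2 ^ I) (hd : d ∈ FF (2 ^ 2 ^ i0) Y) :
    d.primeFactors.card ≤ 2 ^ (I - i0) := by
  simp only [FF, mem_filter, mem_Icc] at hd
  obtain ⟨⟨-, h2⟩, h3, h4⟩ := hd
  have a1 := Finset.pow_card_le_prod d.primeFactors (fun q => q) (2 ^ 2 ^ i0)
    fun q hq => (h4 q hq).le
  rw [Nat.prod_primeFactors_of_squarefree h3, ← pow_mul] at a1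
  have a2 := (Nat.pow_le_pow_iff_right (by norm_num : 1 < 2)).1 (a1.trans (h2.trans hY))
  rw [← Nat.add_sub_of_le hi, pow_add] at a2
  exact Nat.le_of_mul_le_mul_left a2 (by positivity)

end Pool.Agent.Lib.MP_4f0d88_nt.DG
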