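import Pool.Agent.Lib.MP_4f0d88_nt.DG.Df
import Pool.Agent.Lib.MP_778b46_nt.Mertens

/-! The mass of rough numbers and the energy of the test function. -/

set_option autoImplicit false

noncomputable section

namespace Pool.Agent.Lib.MP_4f0d88_nt.DG

open Finset Real

theorem nb_harm (n : ℕ) : ((harmonic n : ℚ) : ℝ) = ∑ m ∈ Icc 1 n, (1 : ℝ) / m := by
  rw [harmonic_eq_sum_Icc]
  push_cast
  simp only [one_div]

theorem nb_rough {S : Finset ℕ} {r Y : ℕ} (hr : 1 ≤ r)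
    (hS : ∀ d ∈ S, 1 ≤ d ∧ d ≤ Y ∧ ∀ p, p.Prime → p ∣ d → r ≤ p) :
    (∑ d ∈ S, (1 : ℝ) / d) * log r ≤ 1 + log ((Y * r : ℕ) : ℝ) := by
  have h1 : log r ≤ ∑ m ∈ Icc 1 (r - 1), (1 : ℝ) / m := by
    have := log_add_one_le_harmonic (r - 1)
    rwa [Nat.sub_add_cancel hr, nb_harm] at this
  have h2 := harmonic_le_one_add_log (Y * r)
  rw [nb_harm] at h2
  have cop : ∀ d ∈ S, ∀ m ∈ Icc 1 (r - 1), Nat.Coprime d m := fun d hd m hm =>
    Nat.coprime_of_dvd fun p hp h3 h4 => by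
      have h5 := (hS d hd).2.2 p hp h3
      have h6 := Nat.le_of_dvd (mem_Icc.1 hm).1 h4
      have h7 := (mem_Icc.1 hm).2
      omega
  refine (mul_le_mul_of_nonneg_left h1 (sum_nonneg fun _ _ => by positivity)).trans
    (le_trans ?_ h2)
  rw [sum_mul_sum, ← sum_product']
  have h3 : ∑ x ∈ S ×ˢ Icc 1 (r - 1), (1 : ℝ) / x.1 * (1 / x.2) =
      ∑ n ∈ (S ×ˢ Icc 1 (r - 1)).image fun x => x.1 * x.2, (1 : ℝ) / n := by
    rw [sum_image]
    · exact sum_congr rfl fun x _ => by push_cast; rw [div_mul_div_comm, one_mul]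
    · rintro ⟨a, m⟩ ha ⟨b, n⟩ hb (e : a * m = b * n)
      obtain ⟨ha1, ha2⟩ := mem_product.1 (mem_coe.1 ha)
      obtain ⟨hb1, hb2⟩ := mem_product.1 (mem_coe.1 hb)
      have e1 : a = b := Nat.dvd_antisymm
        ((cop a ha1 n hb2).dvd_of_dvd_mul_right (e ▸ dvd_mul_right a m))
        ((cop b hb1 m ha2).dvd_of_dvd_mul_right (e ▸ dvd_mul_right b n))
      subst e1
      rw [Nat.eq_of_mul_eq_mul_left (hS a ha1).1 e]
  rw [h3]
  refine sum_le_sum_of_subset_of_nonneg (fun n hn => ?_) fun _ _ _ => by positivity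
  obtain ⟨x, hx, rfl⟩ := mem_image.1 hn
  obtain ⟨hx1, hx2⟩ := mem_product.1 hx
  exact mem_Icc.2 ⟨Nat.mul_pos (hS _ hx1).1 (mem_Icc.1 hx2).1,
    Nat.mul_le_mul (hS _ hx1).2.1 ((mem_Icc.1 hx2).2.trans (Nat.sub_le _ _))⟩

theorem nb_le_lvl {i q : ℕ} (h : 2 ^ 2 ^ i ≤ q) : i ≤ Nat.log 2 (Nat.log 2 q) :=
  Nat.le_log_of_pow_le one_lt_two (Nat.le_log_of_pow_le one_lt_two h)

theorem nb_lvl_le {I q : ℕ} (h : q ≤ 2 ^ 2 ^ I) : Nat.log 2 (Nat.log 2 q) ≤ I := by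
  have h1 := Nat.log_mono_right (b := 2) (Nat.log_mono_right (b := 2) h)
  rwa [Nat.log_pow one_lt_two, Nat.log_pow one_lt_two] at h1

theorem nb_pow_le {q : ℕ} (h : 2 ≤ q) : 2 ^ 2 ^ Nat.log 2 (Nat.log 2 q) ≤ q :=
  Nat.pow_le_of_le_log (by omega) (Nat.pow_log_le_self 2 (Nat.log_pos one_lt_two h).ne')

theorem nb_lt_pow (q : ℕ) : q < 2 ^ 2 ^ (Nat.log 2 (Nat.log 2 q) + 1) :=
  Nat.lt_pow_of_log_lt one_lt_two (Nat.lt_pow_succ_log_self one_lt_two _)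

theorem nb_FF {z Y d : ℕ} (h : d ∈ FF z Y) :
    1 ≤ d ∧ d ≤ Y ∧ ∀ q, q.Prime → q ∣ d → z < q := by
  obtain ⟨h1, -, h2⟩ := mem_filter.1 h
  obtain ⟨h3, h4⟩ := mem_Icc.1 h1
  exact ⟨h3, h4, fun q hq k => h2 q (Nat.mem_primeFactors.2 ⟨hq, k, by omega⟩)⟩

theorem nb_idx {i0 I Y d : ℕ} (hi : i0 ≤ I) (hY : Y ≤ 2 ^ 2 ^ I) (h : d ∈ FF (2 ^ 2 ^ i0) Y) :
    i0 ≤ idx I d ∧ idx I d ≤ I := by
  obtain ⟨h1, h2, h3⟩ := nb_FF h
  unfold idx
  split_ifs with e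
  · exact ⟨hi, le_rfl⟩
  · exact ⟨nb_le_lvl (h3 _ (Nat.minFac_prime e) (Nat.minFac_dvd d)).le,
      nb_lvl_le ((Nat.minFac_le h1).trans (h2.trans hY))⟩

theorem rough_le {i0 I Y : ℕ} (hY : Y ≤ 2 ^ 2 ^ I) {i : ℕ} (hi : i ≤ I) :
    ∑ d ∈ (FF (2 ^ 2 ^ i0) Y).filter (fun d => idx I d = i), (1 : ℝ) / d ≤ 4 * 2 ^ (I - i) := by
  have h1 := nb_rough (S := (FF (2 ^ 2 ^ i0) Y).filter (fun d => idx I d = i)) (r := 2 ^ 2 ^ i)
    (Y := 2 ^ 2 ^ I) Nat.one_le_two_pow fun d hd => by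
      obtain ⟨h2, h3⟩ := mem_filter.1 hd
      obtain ⟨h4, h5, -⟩ := nb_FF h2
      refine ⟨h4, h5.trans hY, fun p hp k => ?_⟩
      have e : d ≠ 1 := fun e => hp.one_lt.ne' (Nat.dvd_one.1 (e ▸ k))
      rw [idx, if_neg e] at h3
      rw [← h3]
      exact (nb_pow_le (Nat.minFac_prime e).two_le).trans (Nat.minFac_le_of_dvd hp.two_le k)
  obtain ⟨n, rfl⟩ := Nat.exists_eq_add_of_le hi
  rw [← pow_add] at h1
  push_cast at h1
  rw [log_pow, log_pow] at h1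
  push_cast at h1
  rw [Nat.add_sub_cancel_left]
  have h2 : (1 : ℝ) ≤ 2 ^ i := one_le_pow₀ one_le_two
  have h3 : (1 : ℝ) ≤ 2 ^ n := one_le_pow₀ one_le_two
  have h4 := log_two_gt_d9
  have h5 : (0 : ℝ) < 2 ^ i * log 2 := by positivity
  refine le_of_mul_le_mul_right (h1.trans ?_) h5
  rw [pow_add]
  have h6 : (1 : ℝ) * (2 ^ i * log 2) ≤ 2 ^ n * (2 ^ i * log 2) :=
    mul_le_mul_of_nonneg_right h3 h5.le
  have h7 : (1 : ℝ) * log 2 ≤ 2 ^ i * log 2 := mul_le_mul_of_nonneg_right h2 (by linarith)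
  nlinarith

theorem nb_sq (n : ℕ) :
    ∑ m ∈ range n, (m : ℝ) ^ 2 / 2 ^ m = 6 - (2 * (n : ℝ) ^ 2 + 4 * n + 6) / 2 ^ n := by
  induction n with
  | zero => norm_num
  | succ n ih =>
    rw [sum_range_succ, ih, pow_succ (2 : ℝ) n]
    push_cast
    field_simp
    ring

theorem nb_geo (k J : ℕ) : ∑ i ∈ range J, ((i - k : ℕ) : ℝ) ^ 2 / 2 ^ i ≤ 6 / 2 ^ k := by
  refine (sum_le_sum_of_subset_of_nonneg (range_mono (Nat.le_add_left J k))
    fun _ _ _ => by positivity).trans ?_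
  rw [sum_range_add, sum_eq_zero fun i hi => by
    rw [Nat.sub_eq_zero_of_le (mem_range.1 hi).le]; simp, zero_add]
  simp only [Nat.add_sub_cancel_left, pow_add, div_mul_eq_div_div_swap]
  rw [← sum_div, nb_sq]
  gcongr
  exact sub_le_self _ (by positivity)

theorem nb_mom {i0 I Y : ℕ} (hi : i0 ≤ I) (hY : Y ≤ 2 ^ 2 ^ I) (k : ℕ) :
    ∑ d ∈ FF (2 ^ 2 ^ i0) Y, ((idx I d - k : ℕ) : ℝ) ^ 2 / d ≤ 24 * 2 ^ I / 2 ^ k := by
  rw [← sum_fiberwise_of_maps_to (t := range (I + 1)) (g := idx I)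
    fun d hd => mem_range.2 (Nat.lt_succ_of_le (nb_idx hi hY hd).2)]
  have h1 := mul_le_mul_of_nonneg_left (nb_geo k (I + 1)) (by positivity : (0 : ℝ) ≤ 4 * 2 ^ I)
  rw [mul_sum] at h1
  refine le_trans (sum_le_sum fun i hi' => ?_) (h1.trans_eq (by ring))
  have h2 := Nat.le_of_lt_succ (mem_range.1 hi')
  have h3 := mul_le_mul_of_nonneg_left (rough_le (i0 := i0) hY h2) (sq_nonneg ((i - k : ℕ) : ℝ))
  rw [mul_sum, pow_sub₀ _ two_ne_zero h2] at h3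
  refine le_trans (le_of_eq (sum_congr rfl fun d hd => ?_)) (h3.trans_eq (by ring))
  rw [(mem_filter.1 hd).2, mul_one_div]

theorem nb_primes {i0 I Y : ℕ} (hi : i0 < I) (hY : Y ≤ 2 ^ 2 ^ I) :
    ∑ q ∈ (Ioc (2 ^ 2 ^ i0) Y).filter Nat.Prime,
      log q / q / 2 ^ Nat.log 2 (Nat.log 2 q) ≤ 6 * ((I : ℝ) - i0) := by
  rw [← sum_fiberwise_of_maps_to (t := Icc i0 I) (g := fun q => Nat.log 2 (Nat.log 2 q))
    fun q hq => mem_Icc.2 ⟨nb_le_lvl (mem_Ioc.1 (mem_filter.1 hq).1).1.le,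
      nb_lvl_le ((mem_Ioc.1 (mem_filter.1 hq).1).2.trans hY)⟩]
  refine (sum_le_card_nsmul _ _ (3 : ℝ) fun k _ => ?_).trans ?_
  · have h1 := MP_778b46_nt.sum_log_div_le (2 ^ 2 ^ (k + 1)) Nat.one_le_two_pow
    rw [show (4 : ℝ) = 2 ^ 2 by norm_num] at h1
    push_cast at h1
    rw [log_pow, log_pow] at h1
    push_cast at h1
    have h2 : (1 : ℝ) ≤ 2 ^ k := one_le_pow₀ one_le_two
    have h3 := log_two_lt_d9
    have h4 := log_two_gt_d9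
    rw [sum_congr rfl (g := fun q : ℕ => log q / q / 2 ^ k)
      (fun q hq => by rw [(mem_filter.1 hq).2]), ← sum_div, div_le_iff₀ (by positivity)]
    refine (sum_le_sum_of_subset_of_nonneg (fun q hq => ?_) fun q _ _ =>
      div_nonneg (log_natCast_nonneg q) (Nat.cast_nonneg q)).trans (h1.trans ?_)
    · obtain ⟨h5, h6⟩ := mem_filter.1 hq
      refine Nat.mem_primesLE.2 ⟨?_, (mem_filter.1 h5).2⟩
      rw [← h6]
      exact (nb_lt_pow q).le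
    · rw [pow_succ]
      nlinarith
  · rw [Nat.card_Icc, nsmul_eq_mul, Nat.cast_sub (by omega)]
    have h1 : (i0 : ℝ) + 1 ≤ I := by exact_mod_cast hi
    push_cast
    linarith

theorem nb_edge {i0 I Y d q : ℕ} (hY : Y ≤ 2 ^ 2 ^ I) (hq : q.Prime) (hqY : q ≤ Y) :
    (tg i0 I d - tg i0 I (d * q)) ^ 2 ≤
      ((idx I d - Nat.log 2 (Nat.log 2 q) : ℕ) : ℝ) ^ 2 / ((I : ℝ) - i0) ^ 2 := by
  have e : d * q ≠ 1 := fun e => hq.one_lt.ne' (Nat.eq_one_of_mul_eq_one_left e)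
  have hp := Nat.minFac_prime e
  have h1 : idx I (d * q) ≤ idx I d := by
    unfold idx
    rw [if_neg e]
    split_ifs with k
    · exact nb_lvl_le ((Nat.minFac_le_of_dvd hq.two_le (dvd_mul_left q d)).trans (hqY.trans hY))
    · exact Nat.log_mono_right (Nat.log_mono_right (Nat.minFac_le_of_dvd
        (Nat.minFac_prime k).two_le ((Nat.minFac_dvd d).mul_right q)))
  rw [tg, tg, ← sub_div, div_pow, sub_sub_sub_cancel_right]
  refine div_le_div_of_nonneg_right ?_ (sq_nonneg _)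
  rcases hp.dvd_mul.1 (Nat.minFac_dvd (d * q)) with k | k
  · have e1 : d ≠ 1 := fun e1 => hp.one_lt.ne' (Nat.dvd_one.1 (e1 ▸ k))
    have h2 : idx I d ≤ idx I (d * q) := by
      unfold idx
      rw [if_neg e, if_neg e1]
      exact Nat.log_mono_right (Nat.log_mono_right (Nat.minFac_le_of_dvd hp.two_le k))
    rw [le_antisymm h1 h2, sub_self, zero_pow two_ne_zero]
    exact sq_nonneg _
  · have h2 : idx I (d * q) = Nat.log 2 (Nat.log 2 q) := by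
      rw [idx, if_neg e, (Nat.prime_dvd_prime_iff_eq hp hq).1 k]
    rw [← h2, Nat.cast_sub h1]

theorem energy_le {i0 I Y : ℕ} (hi : i0 < I) (hY : Y ≤ 2 ^ 2 ^ I) {K : ℝ} (hK : 0 ≤ K) :
    En (2 ^ 2 ^ i0) Y K (tg i0 I) ≤
      24 * K * 2 ^ (I - i0) / ((I : ℝ) - i0) ^ 2 + 144 * 2 ^ I / ((I : ℝ) - i0) := by
  have hl : (0 : ℝ) < (I : ℝ) - i0 := sub_pos.2 (by exact_mod_cast hi)
  refine add_le_add ?_ ?_
  · have h1 := mul_le_mul_of_nonneg_left (nb_mom hi.le hY i0)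
      (by positivity : 0 ≤ K / ((I : ℝ) - i0) ^ 2)
    rw [mul_sum] at h1
    rw [pow_sub₀ _ two_ne_zero hi.le]
    refine le_trans (le_of_eq (sum_congr rfl fun d hd => ?_)) (h1.trans_eq (by ring))
    rw [tg, Nat.cast_sub (nb_idx hi.le hY hd).1, div_pow]
    ring
  · have h1 : ∀ d ∈ FF (2 ^ 2 ^ i0) Y, ∑ q ∈ UU (2 ^ 2 ^ i0) Y d,
        log q / (d * q) * (tg i0 I d - tg i0 I (d * q)) ^ 2 ≤
        ∑ q ∈ (Ioc (2 ^ 2 ^ i0) Y).filter Nat.Prime, log q / q / ((I : ℝ) - i0) ^ 2 *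
          (((idx I d - Nat.log 2 (Nat.log 2 q) : ℕ) : ℝ) ^ 2 / d) := fun d _ => by
      have h2 : UU (2 ^ 2 ^ i0) Y d ⊆ (Ioc (2 ^ 2 ^ i0) Y).filter Nat.Prime := fun q hq =>
        mem_filter.2 ⟨Ioc_subset_Ioc_right (Nat.div_le_self _ _) (mem_filter.1 hq).1,
          (mem_filter.1 hq).2.1⟩
      refine le_trans (sum_le_sum fun q hq => ?_) (sum_le_sum_of_subset_of_nonneg h2
        fun q _ _ => by have := log_natCast_nonneg q; positivity)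
      obtain ⟨h3, h4⟩ := mem_filter.1 (h2 hq)
      have h5 := log_natCast_nonneg q
      refine (mul_le_mul_of_nonneg_left (nb_edge hY h4 (mem_Ioc.1 h3).2)
        (by positivity)).trans_eq ?_
      ring
    refine (sum_le_sum h1).trans ?_
    rw [sum_comm]
    have h2 := mul_le_mul_of_nonneg_left (nb_primes hi hY)
      (by positivity : (0 : ℝ) ≤ 24 * 2 ^ I / ((I : ℝ) - i0) ^ 2)
    rw [mul_sum] at h2
    refine le_trans (sum_le_sum fun q _ => ?_) (h2.trans_eq (by field_simp; norm_num))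
    have h5 := log_natCast_nonneg q
    rw [← mul_sum]
    refine (mul_le_mul_of_nonneg_left (nb_mom hi.le hY _) (by positivity)).trans_eq ?_
    ring

end Pool.Agent.Lib.MP_4f0d88_nt.DG
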