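import Pool.Agent.Lib.MP_4f0d88_nt.DG.Df

/-! The ground state inequality on the divisor graph. -/

set_option autoImplicit false

noncomputable section

namespace Pool.Agent.Lib.MP_4f0d88_nt.DG

open Finset Real

theorem mem_FF {z Y d : ℕ} : d ∈ FF z Y ↔
    (1 ≤ d ∧ d ≤ Y) ∧ Squarefree d ∧ ∀ q ∈ d.primeFactors, z < q := by
  simp only [FF, mem_filter, mem_Icc]

theorem mem_UU {z Y d q : ℕ} : q ∈ UU z Y d ↔ (z < q ∧ q ≤ Y / d) ∧ q.Prime ∧ ¬ q ∣ d := by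
  simp only [UU, mem_filter, mem_Ioc]

theorem one_mem_FF {z Y : ℕ} (hY : 1 ≤ Y) : 1 ∈ FF z Y := by
  rw [mem_FF]; simp [hY]

theorem mul_mem_FF {z Y d q : ℕ} (hd : d ∈ FF z Y) (hq : q ∈ UU z Y d) : d * q ∈ FF z Y := by
  rw [mem_FF] at hd ⊢
  rw [mem_UU] at hq
  obtain ⟨⟨h1, h2⟩, h3, h4⟩ := hd
  obtain ⟨⟨q1, q2⟩, q3, q4⟩ := hq
  have hc : Nat.Coprime d q := ((Nat.Prime.coprime_iff_not_dvd q3).2 q4).symm
  refine ⟨⟨Nat.mul_pos h1 q3.pos, ?_⟩, ?_, ?_⟩
  · rw [Nat.le_div_iff_mul_le h1] at q2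
    rwa [mul_comm]
  · exact (Nat.squarefree_mul hc).2 ⟨h3, q3.prime.squarefree⟩
  · intro r hr
    rw [hc.primeFactors_mul, mem_union, q3.primeFactors, mem_singleton] at hr
    rcases hr with hr | rfl
    · exact h4 r hr
    · exact q1

theorem div_mem_FF {z Y e q : ℕ} (he : e ∈ FF z Y) (hq : q ∈ e.primeFactors) :
    e / q ∈ FF z Y ∧ q ∈ UU z Y (e / q) ∧ e / q * q = e := by
  have he' := mem_FF.1 he
  obtain ⟨⟨h1, h2⟩, h3, h4⟩ := he'
  have hp := Nat.prime_of_mem_primeFactors hq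
  have hd := Nat.dvd_of_mem_primeFactors hq
  have hm : e / q * q = e := Nat.div_mul_cancel hd
  have hpos : 1 ≤ e / q := Nat.div_pos (Nat.le_of_dvd h1 hd) hp.pos
  have hdv : e / q ∣ e := Nat.div_dvd_of_dvd hd
  refine ⟨mem_FF.2 ⟨⟨hpos, (Nat.div_le_self _ _).trans h2⟩, h3.squarefree_of_dvd hdv, ?_⟩,
    mem_UU.2 ⟨⟨h4 q hq, ?_⟩, hp, ?_⟩, hm⟩
  · intro r hr
    exact h4 r (Nat.primeFactors_mono hdv (by omega) hr)
  · rw [Nat.le_div_iff_mul_le hpos, mul_comm, hm]; exact h2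
  · intro h
    have : q * q ∣ e := by
      rw [← hm]; exact Nat.mul_dvd_mul_right h q
    exact hp.one_lt.ne' (Nat.isUnit_iff.1 (h3 q this))

theorem sum_edges (z Y : ℕ) (H : ℕ → ℕ → ℝ) :
    ∑ e ∈ FF z Y, ∑ q ∈ e.primeFactors, H (e / q) q = ∑ d ∈ FF z Y, ∑ q ∈ UU z Y d, H d q := by
  rw [sum_sigma', sum_sigma']
  refine sum_bij' (fun x _ => ⟨x.1 / x.2, x.2⟩) (fun x _ => ⟨x.1 * x.2, x.2⟩) ?_ ?_ ?_ ?_ ?_
  · rintro ⟨e, q⟩ h
    rw [mem_sigma] at h ⊢
    exact ⟨(div_mem_FF h.1 h.2).1, (div_mem_FF h.1 h.2).2.1⟩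
  · rintro ⟨d, q⟩ h
    rw [mem_sigma] at h ⊢
    have hm := mul_mem_FF h.1 h.2
    refine ⟨hm, Nat.mem_primeFactors.2 ⟨(mem_UU.1 h.2).2.1, Dvd.intro_left _ rfl, ?_⟩⟩
    have := (mem_FF.1 hm).1.1
    simp only at this ⊢
    omega
  · rintro ⟨e, q⟩ h
    rw [mem_sigma] at h
    simp only [(div_mem_FF h.1 h.2).2.2]
  · rintro ⟨d, q⟩ h
    rw [mem_sigma] at h
    simp only [Nat.mul_div_cancel _ (mem_UU.1 h.2).2.1.pos]
  · rintro ⟨e, q⟩ _
    rfl

theorem sum_LL (z Y : ℕ) (A : ℝ) (w f : ℕ → ℝ) :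
    ∑ d ∈ FF z Y, w d * LL z Y A f d = ∑ d ∈ FF z Y, d.totient * A * (w d * f d) -
      ∑ d ∈ FF z Y, ∑ q ∈ UU z Y d, d.totient * log q * (w d * f (d * q) + w (d * q) * f d) := by
  have h := sum_edges z Y fun d q => d.totient * log q * (w (d * q) * f d)
  have h2 : ∑ e ∈ FF z Y, ∑ q ∈ e.primeFactors,
      ((e / q).totient : ℝ) * log q * (w (e / q * q) * f (e / q)) =
      ∑ e ∈ FF z Y, w e * ∑ q ∈ e.primeFactors, (e / q).totient * log q * f (e / q) := by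
    refine sum_congr rfl fun e he => ?_
    rw [mul_sum]
    refine sum_congr rfl fun q hq => ?_
    rw [(div_mem_FF he hq).2.2]; ring
  simp only [mul_add, sum_add_distrib]
  rw [← h, h2, ← sub_sub, ← sum_sub_distrib, ← sum_sub_distrib]
  refine sum_congr rfl fun d _ => ?_
  unfold LL
  rw [mul_sub, mul_sub, mul_sum]
  congr 2
  · ring
  · exact sum_congr rfl fun q _ => by ring

theorem LL_inv {z Y d : ℕ} (A : ℝ) (hd : d ∈ FF z Y) :
    LL z Y A (fun n => (n : ℝ)⁻¹) d = d.totient / d * kap z Y A d := by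
  have h1 : (0 : ℝ) < d := by exact_mod_cast (mem_FF.1 hd).1.1
  unfold LL kap
  rw [mul_sub, mul_sub, mul_sum, mul_sum]
  congr 1
  · congr 1
    · ring
    · refine sum_congr rfl fun q _ => ?_
      push_cast
      ring
  · refine sum_congr rfl fun q hq => ?_
    obtain ⟨k1, k2, k3⟩ := div_mem_FF hd hq
    have hp := (mem_UU.1 k2).2.1
    have hc : Nat.Coprime (d / q) q := ((Nat.Prime.coprime_iff_not_dvd hp).2 (mem_UU.1 k2).2.2).symm
    have ht : (d.totient : ℝ) = (d / q).totient * ((q : ℝ) - 1) := by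
      conv_lhs => rw [← k3, Nat.totient_mul hc, Nat.totient_prime hp]
      rw [Nat.cast_mul, Nat.cast_sub hp.one_le, Nat.cast_one]
    have hq2 : (1 : ℝ) < q := by exact_mod_cast hp.one_lt
    have hm : (0 : ℝ) < (d / q : ℕ) := by exact_mod_cast (mem_FF.1 k1).1.1
    have hd' : (d : ℝ) = (d / q : ℕ) * q := by exact_mod_cast k3.symm
    have : (q : ℝ) - 1 ≠ 0 := by linarith
    rw [ht]
    beta_reduce
    generalize ((d / q : ℕ) : ℝ) = m at hm hd' ⊢
    rw [hd']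
    field_simp

theorem picone {z Y : ℕ} (hY : 1 ≤ Y) {A K : ℝ} {f g : ℕ → ℝ} (hg : g 1 = 1)
    (hf : ∀ d ∈ FF z Y, 0 < f d) (hL : ∀ d ∈ FF z Y, d ≠ 1 → 0 ≤ LL z Y A f d)
    (hk : ∀ d ∈ FF z Y, kap z Y A d ≤ K) (hK : 0 ≤ K) :
    LL z Y A f 1 ≤ f 1 * En z Y K g := by
  have h1 := one_mem_FF (z := z) hY
  set u : ℕ → ℝ := fun n => (n : ℝ)⁻¹ with hu
  have a1 := sum_LL z Y A (fun d => (g d * u d) ^ 2 / f d) f
  have a2 := sum_LL z Y A (fun d => g d ^ 2 * u d) u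
  have b1 : LL z Y A f 1 / f 1 ≤ ∑ d ∈ FF z Y, (g d * u d) ^ 2 / f d * LL z Y A f d := by
    rw [← add_sum_erase _ _ h1]
    have : 0 ≤ ∑ d ∈ (FF z Y).erase 1, (g d * u d) ^ 2 / f d * LL z Y A f d :=
      sum_nonneg fun d hd => mul_nonneg (div_nonneg (sq_nonneg _) (hf d (mem_of_mem_erase hd)).le)
        (hL d (mem_of_mem_erase hd) (ne_of_mem_erase hd))
    have e : (g 1 * u 1) ^ 2 / f 1 * LL z Y A f 1 = LL z Y A f 1 / f 1 := by
      simp only [hg, hu, Nat.cast_one, inv_one]; ring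
    linarith
  have b2 : ∑ d ∈ FF z Y, (d.totient : ℝ) * A * ((g d * u d) ^ 2 / f d * f d) =
      ∑ d ∈ FF z Y, d.totient * A * (g d ^ 2 * u d * u d) :=
    sum_congr rfl fun d hd => by
      rw [div_mul_cancel₀ _ (hf d hd).ne']; ring
  have b3 : ∑ d ∈ FF z Y, g d ^ 2 * u d * LL z Y A u d ≤ ∑ d ∈ FF z Y, K * g d ^ 2 / d := by
    refine sum_le_sum fun d hd => ?_
    have d0 : (0 : ℝ) < d := by exact_mod_cast (mem_FF.1 hd).1.1
    have t1 : (d.totient : ℝ) / d ≤ 1 := by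
      rw [div_le_one d0]; exact_mod_cast Nat.totient_le d
    have t0 : (0 : ℝ) ≤ (d.totient : ℝ) / d := by positivity
    have : (d.totient : ℝ) / d * kap z Y A d ≤ K := by nlinarith [hk d hd]
    rw [LL_inv A hd]
    calc g d ^ 2 * u d * (d.totient / d * kap z Y A d) ≤ g d ^ 2 * u d * K :=
          mul_le_mul_of_nonneg_left this (by simp only [hu]; positivity)
      _ = K * g d ^ 2 / d := by simp only [hu]; ring
  have b4 : ∑ d ∈ FF z Y, ∑ q ∈ UU z Y d, (d.totient : ℝ) * log q *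
        (g d ^ 2 * u d * u (d * q) + g (d * q) ^ 2 * u (d * q) * u d) ≤
      ∑ d ∈ FF z Y, ∑ q ∈ UU z Y d, (d.totient : ℝ) * log q *
        ((g d * u d) ^ 2 / f d * f (d * q) + (g (d * q) * u (d * q)) ^ 2 / f (d * q) * f d) +
      ∑ d ∈ FF z Y, ∑ q ∈ UU z Y d, log q / (d * q) * (g d - g (d * q)) ^ 2 := by
    rw [← sum_add_distrib]
    refine sum_le_sum fun d hd => ?_
    rw [← sum_add_distrib]
    refine sum_le_sum fun q hq => ?_
    have f1 := hf d hd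
    have f2 := hf _ (mul_mem_FF hd hq)
    have d0 : (0 : ℝ) < d := by exact_mod_cast (mem_FF.1 hd).1.1
    have q0 : (1 : ℝ) < q := by exact_mod_cast (mem_UU.1 hq).2.1.one_lt
    have l0 : 0 ≤ log (q : ℝ) := log_nonneg q0.le
    have t1 : (d.totient : ℝ) ≤ d := by exact_mod_cast Nat.totient_le d
    have t0 : (0 : ℝ) ≤ (d.totient : ℝ) := by positivity
    have am : 2 * ((g d * u d) * (g (d * q) * u (d * q))) ≤
        (g d * u d) ^ 2 / f d * f (d * q) + (g (d * q) * u (d * q)) ^ 2 / f (d * q) * f d := by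
      generalize g d * u d = a
      generalize g (d * q) * u (d * q) = b
      have : a ^ 2 / f d * f (d * q) + b ^ 2 / f (d * q) * f d - 2 * (a * b) =
          (a * f (d * q) - b * f d) ^ 2 / (f d * f (d * q)) := by
        field_simp; ring
      have : 0 ≤ (a * f (d * q) - b * f d) ^ 2 / (f d * f (d * q)) := by positivity
      linarith
    have uu : (d.totient : ℝ) * log q * (u d * u (d * q)) ≤ log q / (d * q) := by
      simp only [hu]
      push_cast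
      have : (d.totient : ℝ) * log q * ((d : ℝ)⁻¹ * ((d : ℝ) * q)⁻¹) =
          d.totient / d * (log q / (d * q)) := by ring
      rw [this]
      exact mul_le_of_le_one_left (by positivity) ((div_le_one d0).2 t1)
    have c1 := mul_le_mul_of_nonneg_left am (mul_nonneg t0 l0)
    have c2 := mul_le_mul_of_nonneg_right uu (sq_nonneg (g d - g (d * q)))
    nlinarith
  have f1 := hf 1 h1
  rw [← div_le_iff₀' f1]
  unfold En
  linarith

end Pool.Agent.Lib.MP_4f0d88_nt.DG
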