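import Pool.Agent.Lib.MP_4f0d88_nt.DG.Cyc
import Pool.Agent.Lib.MP_4f0d88_nt.DG.NumA
import Pool.Agent.Lib.MP_4f0d88_nt.DG.NumB
import Pool.Agent.Lib.MP_4f0d88_nt.DG.Pic

/-! The first nonzero Taylor coefficient at `1` of a polynomial of height one is large. -/

set_option autoImplicit false

noncomputable section

namespace Pool.Agent.Lib.MP_4f0d88_nt.DG

open Polynomial Finset Real

theorem log_choose_le {D k : ℕ} {l : ℝ} (hl : 0 < l) (hD : l ≤ D) :
    log (D.choose k) ≤ k * log (D / l) + l := by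
  have h1 : 1 ≤ (D : ℝ) / l := (one_le_div hl).2 hD
  rcases Nat.eq_zero_or_pos (D.choose k) with h | h
  · rw [h, Nat.cast_zero, log_zero]
    have := log_nonneg h1
    positivity
  · have h2 : (D.choose k : ℝ) ≤ (D : ℝ) ^ k / k.factorial := Nat.choose_le_pow_div k D
    have h3 := Real.pow_div_factorial_le_exp l hl.le k
    have h4 : (D.choose k : ℝ) ≤ (D / l) ^ k * exp l := by
      refine h2.trans ?_
      have e : (D : ℝ) ^ k / k.factorial = (D / l) ^ k * (l ^ k / k.factorial) := by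
        rw [div_pow]; field_simp
      rw [e]
      exact mul_le_mul_of_nonneg_left h3 (by positivity)
    have h5 := log_le_log (by exact_mod_cast h) h4
    rwa [log_mul (by positivity) (exp_pos l).ne', log_pow, log_exp] at h5

theorem LL_add (z Y : ℕ) (A c : ℝ) (f u : ℕ → ℝ) (d : ℕ) :
    LL z Y A (fun n => f n + c * u n) d = LL z Y A f d + c * LL z Y A u d := by
  unfold LL
  simp only [mul_add, sum_add_distrib, mul_sub, mul_sum]
  have e1 : ∀ q : ℕ, (d.totient : ℝ) * log q * (c * u (d * q)) =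
      c * (d.totient * log q * u (d * q)) := fun q => by ring
  have e2 : ∀ q : ℕ, ((d / q).totient : ℝ) * log q * (c * u (d / q)) =
      c * ((d / q).totient * log q * u (d / q)) := fun q => by ring
  simp only [e1, e2]
  ring

theorem En_nonneg (z Y : ℕ) {K : ℝ} (hK : 0 ≤ K) (g : ℕ → ℝ) : 0 ≤ En z Y K g := by
  unfold En
  refine add_nonneg (sum_nonneg fun d _ => by positivity) (sum_nonneg fun d _ =>
    sum_nonneg fun q _ => ?_)
  have := log_natCast_nonneg q
  positivity

theorem not_pow_mu {f : ℤ[X]} (hf : f ≠ 0) {d : ℕ} (hd : 0 < d) :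
    ¬ cyclotomic d ℤ ^ (mu f d + 1) ∣ f := by
  have h : FiniteMultiplicity (cyclotomic d ℤ) f :=
    finiteMultiplicity_of_degree_pos_of_monic (degree_cyclotomic_pos d ℤ hd) (cyclotomic.monic d ℤ) hf
  exact h.not_pow_dvd_of_multiplicity_lt (Nat.lt_succ_self _)

theorem gap {N D z Y W : ℕ} {K : ℝ} {g : ℕ → ℝ} (hg : g 1 = 1) (hY : 1 ≤ Y) (hN : 1 ≤ N)
    (hD : N * Y ≤ D) (hYN : (Y : ℝ) * log (D * Y / N) ≤ N)
    (hW : ∀ d ∈ FF z Y, d.primeFactors.card ≤ W)
    (hk : ∀ d ∈ FF z Y, kap z Y (log (D / N) + W + 4) d ≤ K) (hK : 0 ≤ K)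
    {f : ℤ[X]} (hf : f ≠ 0) (hc : ∀ n, |f.coeff n| ≤ 1) (hdeg : f.natDegree < D)
    (hj : mu f 1 < N) :
    (D.choose (mu f 1 + 1) : ℝ) ≤ exp (2 * N * En z Y K g + N + log D) *
      |(((taylor 1 f).coeff (mu f 1) : ℤ) : ℝ)| := by
  set A : ℝ := log (D / N) + W + 4 with hA
  have N0 : (0 : ℝ) < N := by exact_mod_cast hN
  have N1 : (1 : ℝ) ≤ N := by exact_mod_cast hN
  have Y1 : (1 : ℝ) ≤ Y := by exact_mod_cast hY
  have hD' : (N : ℝ) * Y ≤ D := by exact_mod_cast hD
  have ND : (N : ℝ) ≤ D := by nlinarith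
  have D0 : (0 : ℝ) < D := by linarith
  have hdv : ∀ e, cyclotomic e ℤ ^ mu f e ∣ f := fun e => pow_multiplicity_dvd _ _
  have hlog : log Y ≤ log (D / N) := log_le_log (by linarith) (by rw [le_div_iff₀ N0]; linarith)
  have hk2 : ∀ d ∈ FF z Y, 2 ≤ kap z Y A d := fun d hd => by
    have a := kap_ge A hd
    have b : (d.primeFactors.card : ℝ) ≤ W := by exact_mod_cast hW d hd
    linarith
  set F : ℕ → ℝ := fun n => (mu f n : ℝ) + N * (n : ℝ)⁻¹ with hF
  have hL : ∀ d ∈ FF z Y, d ≠ 1 → 0 ≤ LL z Y A F d := by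
    intro d hd _
    obtain ⟨⟨d1, d2⟩, d3, -⟩ := mem_FF.1 hd
    have d0 : (0 : ℝ) < d := by exact_mod_cast d1
    have d1' : (1 : ℝ) ≤ d := by exact_mod_cast d1
    have dY : (d : ℝ) ≤ Y := by exact_mod_cast d2
    have i1 := cyc_ineq (Q := UU z Y d) hc hdeg hdv d3 (not_pow_mu hf d1)
      fun q hq => (mem_UU.1 hq).2
    have i2 := log_choose_le (D := D) (k := mu f d + 1) (l := N / d) (by positivity)
      ((div_le_self N0.le d1').trans ND)
    have e1 : log (D / (N / d)) = log (D / N) + log d := by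
      rw [← log_mul (by positivity) d0.ne']; congr 1; field_simp
    have i3 : log (D / N) + log d ≤ N / d := by
      rw [le_div_iff₀ d0]
      have a : log (D / N) + log d ≤ log (D * Y / N) := by
        rw [← log_mul (by positivity) d0.ne']
        refine log_le_log (by positivity) ?_
        rw [mul_div_right_comm]
        exact mul_le_mul_of_nonneg_left dY (by positivity)
      have b : 0 ≤ log (D / N) + log d :=
        add_nonneg (log_nonneg ((one_le_div N0).2 ND)) (log_nonneg d1')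
      nlinarith
    have i4 : (d.primeFactors.card : ℝ) * log 2 ≤ W := by
      have b : (d.primeFactors.card : ℝ) ≤ W := by exact_mod_cast hW d hd
      have : log 2 ≤ 1 := by linarith [log_two_lt_d9]
      nlinarith [(Nat.cast_nonneg d.primeFactors.card : (0 : ℝ) ≤ _)]
    rw [hF, LL_add, LL_inv A hd]
    have t0 : (0 : ℝ) ≤ d.totient := by positivity
    have m0 : (0 : ℝ) ≤ mu f d := by positivity
    have s1 : ∑ q ∈ UU z Y d, (d.totient : ℝ) * log q * mu f (d * q) =
        ∑ q ∈ UU z Y d, (mu f (d * q) : ℝ) * d.totient * log q :=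
      sum_congr rfl fun q _ => by ring
    have s2 : ∑ q ∈ d.primeFactors, ((d / q).totient : ℝ) * log q * mu f (d / q) =
        ∑ q ∈ d.primeFactors, (mu f (d / q) : ℝ) * (d / q).totient * log q :=
      sum_congr rfl fun q _ => by ring
    unfold LL
    rw [s1, s2]
    rw [e1] at i2
    push_cast at i2
    have j1 := mul_le_mul_of_nonneg_left i2 t0
    have j2 := mul_le_mul_of_nonneg_left i3 t0
    have j3 := mul_le_mul_of_nonneg_left i4 (mul_nonneg t0 m0)
    have j4 := mul_le_mul_of_nonneg_left (hk2 d hd) (by positivity : 0 ≤ N * (d.totient / d : ℝ))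
    have j5 := mul_nonneg t0 m0
    have e2 : (N : ℝ) * (d.totient / d) = d.totient * (N / d) := by ring
    rw [hA]
    nlinarith
  have hP := picone (g := g) hY hg (f := F) (fun d hd => by
    have d0 : (0 : ℝ) < d := by exact_mod_cast (mem_FF.1 hd).1.1
    simp only [hF]; positivity) hL hk hK
  obtain ⟨o2, o1⟩ := cyc_one (Q := UU z Y 1) hdv (not_pow_mu hf one_pos)
    fun q hq => (mem_UU.1 hq).2.1
  have h1 := one_mem_FF (z := z) hY
  have hL1 : A * mu f 1 - ∑ q ∈ UU z Y 1, (mu f q : ℝ) * log q ≤ LL z Y A F 1 := by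
    rw [hF, LL_add, LL_inv A h1]
    have a : 0 ≤ (N : ℝ) * ((Nat.totient 1 : ℝ) / (1 : ℕ) * kap z Y A 1) := by
      have := hk2 1 h1
      positivity
    have b : LL z Y A (fun n => (mu f n : ℝ)) 1 =
        A * mu f 1 - ∑ q ∈ UU z Y 1, (mu f q : ℝ) * log q := by
      unfold LL
      simp only [Nat.totient_one, Nat.cast_one, one_mul, Nat.primeFactors_one, sum_empty, sub_zero]
      congr 1
      exact sum_congr rfl fun q _ => by ring
    linarith
  have hE := En_nonneg z Y hK g
  have jN : (mu f 1 : ℝ) ≤ N := by exact_mod_cast hj.le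
  have hF1 : F 1 * En z Y K g ≤ 2 * N * En z Y K g := by
    refine mul_le_mul_of_nonneg_right ?_ hE
    simp only [hF, Nat.cast_one, inv_one]; linarith
  have c1 := log_choose_le (D := D) (k := mu f 1 + 1) N0 ND
  have c2 : log (D / N) ≤ log D := log_le_log (by positivity) (div_le_self D0.le N1)
  have c3 : (mu f 1 : ℝ) * log (D / N) ≤ A * mu f 1 := by
    rw [mul_comm]
    refine mul_le_mul_of_nonneg_right ?_ (by positivity)
    have : (0 : ℝ) ≤ W := by positivity
    linarith
  have T0 : 0 < |(((taylor 1 f).coeff (mu f 1) : ℤ) : ℝ)| := abs_pos.2 (by exact_mod_cast o2)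
  have C0 : (0 : ℝ) < D.choose (mu f 1 + 1) := by
    have : N ≤ D := by exact_mod_cast ND
    exact_mod_cast Nat.choose_pos (by omega)
  rw [← exp_log T0, ← exp_add, ← exp_log C0, exp_le_exp]
  push_cast at c1
  nlinarith

end Pool.Agent.Lib.MP_4f0d88_nt.DG
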